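import Mathlib

open AlgebraicGeometry CategoryTheory Limits TopologicalSpace Opposite

universe u

namespace MP55c1e7.B0

variable {X : Scheme.{u}}

/-- restriction of sections of a module -/
noncomputable def res (M : X.Modules) {U V : X.Opens} (h : V ≤ U) : Γ(M, U) →+ Γ(M, V) :=
  (M.presheaf.map (homOfLE h).op).hom

/-- restriction of functions -/
noncomputable def rs {U V : X.Opens} (h : V ≤ U) : Γ(X, U) →+* Γ(X, V) :=
  (X.presheaf.map (homOfLE h).op).hom

lemma res_smul (M : X.Modules) {U V : X.Opens} (h : V ≤ U) (a : Γ(X, U)) (x : Γ(M, U)) :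
    res M h (a • x) = rs h a • res M h x := by
  exact M.map_smul (homOfLE h) a x

lemma res_res (M : X.Modules) {U V W : X.Opens} (h : V ≤ U) (h' : W ≤ V) (x : Γ(M, U)) :
    res M h' (res M h x) = res M (h'.trans h) x := by
  have := M.presheaf.map_comp (homOfLE h).op (homOfLE h').op
  exact congr($(this.symm).hom x)

lemma res_self (M : X.Modules) {U : X.Opens} (h : U ≤ U) (x : Γ(M, U)) :
    res M h x = x := by
  have := M.presheaf.map_id (op U)
  exact congr($(this).hom x)

lemma rs_rs {U V W : X.Opens} (h : V ≤ U) (h' : W ≤ V) (x : Γ(X, U)) :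
    rs h' (rs h x) = rs (h'.trans h) x := by
  have := X.presheaf.map_comp (homOfLE h).op (homOfLE h').op
  exact congr($(this.symm).hom x)

lemma rs_self {U : X.Opens} (h : U ≤ U) (x : Γ(X, U)) : rs h x = x := by
  have := X.presheaf.map_id (op U)
  exact congr($(this).hom x)

lemma res_app {M N : X.Modules} (φ : M ⟶ N) {U V : X.Opens} (h : V ≤ U) (x : Γ(M, U)) :
    res N h (φ.app U x) = φ.app V (res M h x) := by
  have := (Scheme.Modules.Hom.mapPresheaf φ).naturality (homOfLE h).op
  exact congr($(this.symm).hom x)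

/-- localisation property of a module on the affine open `U` -/
structure LocOn (M : X.Modules) (U : X.Opens) : Prop where
  ex : ∀ (r : Γ(X, U)) (s : Γ(M, X.basicOpen r)), ∃ (n : ℕ) (t : Γ(M, U)),
    res M (X.basicOpen_le r) t = rs (X.basicOpen_le r) r ^ n • s
  un : ∀ (r : Γ(X, U)) (t : Γ(M, U)), res M (X.basicOpen_le r) t = 0 → ∃ n : ℕ, r ^ n • t = 0

lemma img_le {U : X.Opens} (hU : IsAffineOpen U) (V : (Spec Γ(X, U)).Opens) :
    hU.fromSpec ''ᵁ V ≤ U := by
  have h := hU.fromSpec.image_le_opensRange V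
  rwa [hU.opensRange_fromSpec] at h

lemma appIso_inv_eq {U : X.Opens} (hU : IsAffineOpen U) (V : (Spec Γ(X, U)).Opens)
    (r : Γ(X, U)) :
    (hU.fromSpec.appIso V).inv ((Spec Γ(X, U)).presheaf.map V.leTop.op
      ((Scheme.ΓSpecIso Γ(X, U)).inv r)) = rs (img_le hU V) r := by
  have e : V ≤ hU.fromSpec ⁻¹ᵁ U := by rw [hU.fromSpec_preimage_self]; exact le_top
  have h1 := Scheme.Hom.appLE_appIso_inv hU.fromSpec (U := U) (V := V) e
  have h2 : hU.fromSpec.appLE U V e = (Scheme.ΓSpecIso Γ(X, U)).inv ≫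
      (Spec Γ(X, U)).presheaf.map V.leTop.op := by
    rw [Scheme.Hom.appLE, hU.fromSpec_app_self, Category.assoc, ← Functor.map_comp]
    rfl
  rw [h2] at h1
  exact congr($(h1).hom r)

lemma smul_restrict {M : X.Modules} {U : X.Opens} (hU : IsAffineOpen U)
    (V : (Spec Γ(X, U)).Opens) (r : Γ(X, U)) (x : Γ(M.restrict hU.fromSpec, V)) :
    (show Γ(M, hU.fromSpec ''ᵁ V) from (r • x : Γ(M.restrict hU.fromSpec, V))) =
      rs (img_le hU V) r • (show Γ(M, hU.fromSpec ''ᵁ V) from x) := by
  rw [← appIso_inv_eq]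
  rfl


theorem locOn_of_isQuasicoherent (M : X.Modules) [M.IsQuasicoherent] (U : X.Opens)
    (hU : IsAffineOpen U) : LocOn M U := by
  have h1 : (M.restrict hU.fromSpec).IsQuasicoherent := inferInstance
  have h2 : IsIso (M.restrict hU.fromSpec).fromTildeΓ := inferInstance
  rw [isIso_fromTildeΓ_iff_isLocalizing] at h2
  have e1 : hU.fromSpec ''ᵁ ⊤ = U := by simp
  have e2 : ∀ r : Γ(X, U), hU.fromSpec ''ᵁ (PrimeSpectrum.basicOpen r) = X.basicOpen r := by
    intro r
    exact hU.fromSpec_image_basicOpen r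
  constructor
  · intro r s
    obtain ⟨⟨x, ⟨_, n, rfl⟩⟩, hx⟩ := (h2 r).surj (res M (e2 r).le s :
      Γ(M.restrict hU.fromSpec, PrimeSpectrum.basicOpen r))
    refine ⟨n, res M e1.ge (show Γ(M, hU.fromSpec ''ᵁ ⊤) from x), ?_⟩
    have h3 : rs (img_le hU (PrimeSpectrum.basicOpen r)) (r ^ n) • res M (e2 r).le s =
      res M (hU.fromSpec.image_mono le_top) (show Γ(M, hU.fromSpec ''ᵁ ⊤) from x) := by
      refine (smul_restrict hU _ _ _).symm.trans ?_
      exact hx
    rw [res_res]
    apply_fun res M (e2 r).ge at h3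
    rw [res_res, res_smul, res_res, rs_rs, res_self] at h3
    rw [← h3, map_pow]
  · intro r t ht
    have h3 := (h2 r).exists_of_eq (x₁ := (res M e1.le t : Γ(M.restrict hU.fromSpec, ⊤)))
      (x₂ := 0) (by
        rw [map_zero]
        show res M (hU.fromSpec.image_mono le_top) (res M e1.le t) = 0
        rw [res_res, ← res_res M (X.basicOpen_le r) (e2 r).le, ht, map_zero])
    obtain ⟨⟨_, n, rfl⟩, hn⟩ := h3
    refine ⟨n, ?_⟩
    rw [smul_zero] at hn
    have h4 : rs (img_le hU ⊤) (r ^ n) • res M e1.le t = 0 := by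
      refine (smul_restrict hU _ _ _).symm.trans ?_
      exact hn
    apply_fun res M e1.ge at h4
    rw [res_smul, res_res, rs_rs, res_self, map_zero, rs_self] at h4
    exact h4

end MP55c1e7.B0
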