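import Pool.Agent.Lib.MP_55c1e7_ag.B0.A

/-!
Quasi-coherence is a local property: a module which satisfies the localisation property on the
members of an affine open cover is quasi-coherent.
-/

set_option autoImplicit false

open AlgebraicGeometry CategoryTheory Limits TopologicalSpace Opposite

universe u

namespace MP55c1e7.B0

variable {X : Scheme.{u}}

/-- Sections of the restriction as sections. -/
noncomputable def dn (M : X.Modules) {U : X.Opens} (hU : IsAffineOpen U)
    (V : (Spec Γ(X, U)).Opens) : Γ(M.restrict hU.fromSpec, V) →+ Γ(M, hU.fromSpec ''ᵁ V) :=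
  AddMonoidHom.id _

lemma dn_inj (M : X.Modules) {U : X.Opens} (hU : IsAffineOpen U)
    (V : (Spec Γ(X, U)).Opens) {x y : Γ(M.restrict hU.fromSpec, V)}
    (h : dn M hU V x = dn M hU V y) : x = y := h

lemma dn_surj (M : X.Modules) {U : X.Opens} (hU : IsAffineOpen U)
    (V : (Spec Γ(X, U)).Opens) (y : Γ(M, hU.fromSpec ''ᵁ V)) :
    ∃ x : Γ(M.restrict hU.fromSpec, V), dn M hU V x = y := ⟨y, rfl⟩

lemma dn_smul (M : X.Modules) {U : X.Opens} (hU : IsAffineOpen U)
    (V : (Spec Γ(X, U)).Opens) (r : Γ(X, U)) (x : Γ(M.restrict hU.fromSpec, V)) :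
    dn M hU V (r • x) = rs (img_le hU V) r • dn M hU V x :=
  smul_restrict hU V r x

lemma dn_map (M : X.Modules) {U : X.Opens} (hU : IsAffineOpen U)
    (V : (Spec Γ(X, U)).Opens) (x : Γ(M.restrict hU.fromSpec, ⊤)) :
    dn M hU V ((M.restrict hU.fromSpec).presheaf.map V.leTop.op x) =
      res M (hU.fromSpec.image_mono le_top) (dn M hU ⊤ x) := rfl

section

variable (M : X.Modules) {U : X.Opens} (hU : IsAffineOpen U) (h : LocOn M U)

include h

lemma surj_aux (r : Γ(X, U)) (V : (Spec Γ(X, U)).Opens) (e2 : hU.fromSpec ''ᵁ V = X.basicOpen r)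
    (y : Γ(M.restrict hU.fromSpec, V)) :
    ∃ (n : ℕ) (x : Γ(M.restrict hU.fromSpec, ⊤)), r ^ n • y =
      (M.restrict hU.fromSpec).presheaf.map V.leTop.op x := by
  have e1 : hU.fromSpec ''ᵁ ⊤ = U := by simp
  obtain ⟨n, t, ht⟩ := h.ex r (res M e2.ge (dn M hU V y))
  obtain ⟨x, hx⟩ := dn_surj M hU ⊤ (res M e1.le t)
  refine ⟨n, x, dn_inj M hU _ ?_⟩
  rw [dn_smul, dn_map, hx, res_res, ← res_res M (X.basicOpen_le r) e2.le, ht, res_smul, res_res,
    res_self, map_pow, map_pow, rs_rs]

lemma inj_aux (r : Γ(X, U)) (V : (Spec Γ(X, U)).Opens) (e2 : hU.fromSpec ''ᵁ V = X.basicOpen r)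
    (x : Γ(M.restrict hU.fromSpec, ⊤))
    (hx : (M.restrict hU.fromSpec).presheaf.map V.leTop.op x = 0) :
    ∃ (n : ℕ), r ^ n • x = 0 := by
  have e1 : hU.fromSpec ''ᵁ ⊤ = U := by simp
  have hx' : res M (hU.fromSpec.image_mono (le_top : V ≤ ⊤)) (dn M hU ⊤ x) = 0 := by
    rw [← dn_map, hx, map_zero]
  obtain ⟨n, hn⟩ := h.un r (res M e1.ge (dn M hU ⊤ x)) (by
    apply_fun res M e2.ge at hx'
    rw [res_res, map_zero] at hx'
    rw [res_res, hx'])
  refine ⟨n, dn_inj M hU _ ?_⟩
  apply_fun res M e1.le at hn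
  rw [res_smul, res_res, res_self, map_zero] at hn
  rw [dn_smul, map_zero, map_pow]
  rw [map_pow] at hn
  exact hn

lemma inj_aux' (r : Γ(X, U)) (V : (Spec Γ(X, U)).Opens) (e2 : hU.fromSpec ''ᵁ V = X.basicOpen r)
    (x₁ x₂ : Γ(M.restrict hU.fromSpec, ⊤))
    (hx : (M.restrict hU.fromSpec).presheaf.map V.leTop.op x₁ =
      (M.restrict hU.fromSpec).presheaf.map V.leTop.op x₂) :
    ∃ (n : ℕ), r ^ n • x₁ = r ^ n • x₂ := by
  obtain ⟨n, hn⟩ := inj_aux M hU h r V e2 (x₁ - x₂) (by rw [map_sub, hx, sub_self])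
  exact ⟨n, by rwa [smul_sub, sub_eq_zero] at hn⟩

/-- The localisation property gives the localisation property on the spectrum. -/
theorem isLocalizing_of_locOn :
    IsLocalizing (modulesSpecToSheaf.obj (M.restrict hU.fromSpec)) := by
  intro r
  constructor
  · rintro ⟨_, n, rfl⟩
    simp only [map_pow]
    exact ((M.restrict hU.fromSpec).isUnit_algebraMap_end_of_le_basicOpen r le_rfl).pow n
  · intro y
    obtain ⟨n, x, hx⟩ := surj_aux M hU h r (PrimeSpectrum.basicOpen r)
      (hU.fromSpec_image_basicOpen r) y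
    exact ⟨⟨x, ⟨_, n, rfl⟩⟩, hx⟩
  · intro x₁ x₂ hx
    obtain ⟨n, hn⟩ := inj_aux' M hU h r (PrimeSpectrum.basicOpen r)
      (hU.fromSpec_image_basicOpen r) x₁ x₂ hx
    exact ⟨⟨_, n, rfl⟩, hn⟩

theorem isQuasicoherent_restrict_fromSpec : (M.restrict hU.fromSpec).IsQuasicoherent := by
  rw [isQuasicoherent_iff_isIso_fromTildeΓ, isIso_fromTildeΓ_iff_isLocalizing]
  exact isLocalizing_of_locOn M hU h

end

set_option backward.isDefEq.respectTransparency false in
/-- A quasi-coherent module on a spectrum has a presentation. -/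
noncomputable def presSpec {R : CommRingCat.{u}} (N : (Spec R).Modules)
    (h : N.IsQuasicoherent) : N.Presentation :=
  haveI : IsIso N.fromTildeΓ := inferInstance
  SheafOfModules.Presentation.ofIsIso.{u, u, u} N.fromTildeΓ
    (presentationTilde.{u} _ .univ (by simp) _ (Submodule.span_eq _))

set_option backward.isDefEq.respectTransparency false in
/-- The presentation on an affine open set. -/
noncomputable def presAffine (M : X.Modules) {U : X.Opens} (hU : IsAffineOpen U)
    (h : LocOn M U) : (M.restrict U.ι).Presentation :=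
  let iso : Scheme.Modules.restrictFunctor hU.fromSpec ⋙
      Scheme.Modules.restrictFunctor hU.isoSpec.hom ≅ Scheme.Modules.restrictFunctor U.ι :=
    (Scheme.Modules.restrictFunctorComp hU.isoSpec.hom hU.fromSpec).symm ≪≫
      Scheme.Modules.restrictFunctorCongr (by simp)
  SheafOfModules.Presentation.ofIsIso.{u, u, u} (iso.app M).hom
    (Scheme.Modules.presentationRestrict hU.isoSpec.hom
      (presSpec (M.restrict hU.fromSpec) (isQuasicoherent_restrict_fromSpec M hU h)))

set_option backward.isDefEq.respectTransparency false in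
/-- The presentation over an affine open set. -/
noncomputable def presOver (M : X.Modules) {U : X.Opens} (P : (M.restrict U.ι).Presentation) :
    (SheafOfModules.over M U).Presentation :=
  let e := Scheme.Modules.overEquiv U
  let iso : e.inverse.obj (M.restrict U.ι) ≅ SheafOfModules.over M U :=
    e.inverse.mapIso ((Scheme.Modules.overFunctorEquiv U).symm.app M) ≪≫
      (e.unitIso.app _).symm
  SheafOfModules.Presentation.ofIsIso.{u, u, u} iso.hom
    (P.map e.inverse (U.sheafOfModulesEquivOverInverseUnit X.ringCatSheaf).symm)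

set_option backward.isDefEq.respectTransparency false in
theorem isQuasicoherent_of_locOn (M : X.Modules) {I : Type u} (U : I → X.Opens)
    (hU : ∀ i, IsAffineOpen (U i)) (hc : iSup U = ⊤) (h : ∀ i, LocOn M (U i)) :
    M.IsQuasicoherent :=
  SheafOfModules.QuasicoherentData.isQuasicoherent.{u, u, u, u}
    { I := I
      X := U
      coversTop := (Opens.coversTop_iff _ U).mpr hc
      presentation i := presOver M (presAffine M (hU i) (h i)) }

end MP55c1e7.B0
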