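import Pool.Agent.Lib.MP_55c1e7_ag.B0.A

open AlgebraicGeometry CategoryTheory Limits TopologicalSpace Opposite

universe u

namespace MP55c1e7.B0

variable {X : Scheme.{u}}

/-- D1: a morphism from its action on sections -/
noncomputable def homMk {M N : X.Modules} (φ : ∀ U : X.Opens, Γ(M, U) →+ Γ(N, U))
    (hlin : ∀ (U : X.Opens) (a : Γ(X, U)) (x : Γ(M, U)), φ U (a • x) = a • φ U x)
    (hnat : ∀ (U V : X.Opens) (h : V ≤ U) (x : Γ(M, U)), φ V (res M h x) = res N h (φ U x)) :
    M ⟶ N :=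
  (Scheme.Modules.fullyFaithfulToPresheafOfModules (X := X)).preimage
    { app := fun U => ModuleCat.ofHom
        { toFun := φ U.unop
          map_add' := map_add _
          map_smul' := fun a x => hlin U.unop a x }
      naturality := by
        intro U V i
        ext x
        exact hnat U.unop V.unop i.unop.le x }

@[simp] lemma homMk_app {M N : X.Modules} (φ : ∀ U : X.Opens, Γ(M, U) →+ Γ(N, U))
    (hlin : ∀ (U : X.Opens) (a : Γ(X, U)) (x : Γ(M, U)), φ U (a • x) = a • φ U x)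
    (hnat : ∀ (U V : X.Opens) (h : V ≤ U) (x : Γ(M, U)), φ V (res M h x) = res N h (φ U x))
    (U : X.Opens) (x : Γ(M, U)) : (homMk φ hlin hnat).app U x = φ U x := rfl

/-- D2: gluing of sections -/
theorem glue (M : X.Modules) {I : Type u} (W : I → X.Opens) (V : X.Opens) (hV : V ≤ iSup W)
    (hW : ∀ i, W i ≤ V) (s : ∀ i, Γ(M, W i))
    (hs : ∀ i j, res M inf_le_left (s i) = res M (inf_le_right : W i ⊓ W j ≤ W j) (s j)) :
    ∃! t : Γ(M, V), ∀ i, res M (hW i) t = s i := by
  obtain ⟨t, ht1, ht2⟩ := TopCat.Sheaf.existsUnique_gluing' ⟨M.presheaf, M.isSheaf⟩ W V (fun i => homOfLE (hW i)) hV s (by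
    intro i j
    exact hs i j)
  exact ⟨t, ht1, ht2⟩

/-- D2: separatedness -/
theorem ext_cover (M : X.Modules) {I : Type u} (W : I → X.Opens) (V : X.Opens) (hV : V ≤ iSup W)
    (hW : ∀ i, W i ≤ V) (s t : Γ(M, V)) (h : ∀ i, res M (hW i) s = res M (hW i) t) : s = t :=
  TopCat.Sheaf.eq_of_locally_eq' ⟨M.presheaf, M.isSheaf⟩ W V (fun i => homOfLE (hW i)) hV s t h


lemma isUnit_rs_basicOpen {U : X.Opens} (r : Γ(X, U)) : IsUnit (rs (X.basicOpen_le r) r) :=
  RingedSpace.isUnit_res_basicOpen X.toRingedSpace r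

lemma basicOpen_rs {U V : X.Opens} (h : V ≤ U) (r : Γ(X, U)) :
    X.basicOpen (rs h r) = V ⊓ X.basicOpen r :=
  X.basicOpen_res r (homOfLE h).op

/-- the basic opens of an affine open contained in a given open -/
lemma basis_cover {U : X.Opens} (hU : IsAffineOpen U) (V : X.Opens) :
    U ⊓ V ≤ ⨆ r : {r : Γ(X, U) // X.basicOpen r ≤ U ⊓ V}, X.basicOpen r.1 := by
  intro x hx
  obtain ⟨r, hr, hxr⟩ := hU.exists_basicOpen_le (V := V) ⟨x, hx.2⟩ hx.1
  exact Opens.mem_iSup.2 ⟨⟨r, le_inf (X.basicOpen_le r) hr⟩, hxr⟩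

/-- D3: a morphism which is bijective on an affine open is bijective on all smaller opens,
localised case -/
theorem bij_basicOpen {M N : X.Modules} (φ : M ⟶ N) {U : X.Opens}
    (hM : LocOn M U) (hN : LocOn N U) (hb : Function.Bijective (φ.app U)) (r : Γ(X, U)) :
    Function.Bijective (φ.app (X.basicOpen r)) := by
  have hu := isUnit_rs_basicOpen r
  constructor
  · rw [injective_iff_map_eq_zero]
    intro x hx
    obtain ⟨n, t, ht⟩ := hM.ex r x
    have h1 : res N (X.basicOpen_le r) (φ.app U t) = 0 := by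
      rw [res_app, ht, Scheme.Modules.Hom.app_smul, hx, smul_zero]
    obtain ⟨m, hm⟩ := hN.un r _ h1
    rw [← Scheme.Modules.Hom.app_smul, ← map_zero (φ.app U).hom] at hm
    have h2 := hb.1 hm
    have h3 : res M (X.basicOpen_le r) (r ^ m • t) = 0 := by rw [h2, map_zero]
    rw [res_smul, ht, map_pow, smul_smul, ← pow_add] at h3
    exact (hu.pow _).smul_eq_zero.1 h3
  · intro y
    obtain ⟨n, t, ht⟩ := hN.ex r y
    obtain ⟨z, hz⟩ := hb.2 t
    obtain ⟨v, hv⟩ := (hu.pow n)
    refine ⟨(↑v⁻¹ : Γ(X, X.basicOpen r)) • res M (X.basicOpen_le r) z, ?_⟩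
    rw [Scheme.Modules.Hom.app_smul, ← res_app, hz, ht, ← hv, smul_smul, Units.inv_mul, one_smul]

theorem bij_of_le {M N : X.Modules} (φ : M ⟶ N) {U : X.Opens} (hU : IsAffineOpen U)
    (hM : LocOn M U) (hN : LocOn N U) (hb : Function.Bijective (φ.app U)) (V : X.Opens)
    (hV : V ≤ U) : Function.Bijective (φ.app V) := by
  have hc := basis_cover hU V
  rw [inf_eq_right.2 hV] at hc
  have key : ∀ r : {r : Γ(X, U) // X.basicOpen r ≤ V}, Function.Bijective (φ.app (X.basicOpen r.1)) :=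
    fun r => bij_basicOpen φ hM hN hb r.1
  constructor
  · rw [injective_iff_map_eq_zero]
    intro x hx
    refine ext_cover M _ V hc (fun r => r.2) x 0 fun r => ?_
    apply (key r).1
    rw [← res_app, hx, map_zero, map_zero, map_zero]
  · intro y
    choose s hs using fun r => (key r).2 (res N r.2 y)
    have hs2 : ∀ i j, res M inf_le_left (s i) = res M inf_le_right (s j) := by
      intro i j
      -- intersections of basic opens are basic opens
      have e : X.basicOpen i.1 ⊓ X.basicOpen j.1 = X.basicOpen (i.1 * j.1) :=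
        (X.basicOpen_mul _ _).symm
      have hi : X.basicOpen (i.1 * j.1) ≤ X.basicOpen i.1 := e ▸ inf_le_left
      have hj : X.basicOpen (i.1 * j.1) ≤ X.basicOpen j.1 := e ▸ inf_le_right
      have h1 : res M hi (s i) = res M hj (s j) := by
        apply (bij_basicOpen φ hM hN hb (i.1 * j.1)).1
        rw [← res_app, ← res_app, hs, hs, res_res, res_res]
      have h2 := congrArg (res M e.le) h1
      rwa [res_res, res_res] at h2
    obtain ⟨t, ht, -⟩ := glue M _ V hc (fun r => r.2) s hs2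
    refine ⟨t, ext_cover N _ V hc (fun r => r.2) _ _ fun r => ?_⟩
    rw [res_app, ht, hs]



/-- D4: vanishing on an affine open -/
theorem zero_of_le {M N : X.Modules} {U : X.Opens} (hU : IsAffineOpen U)
    (A : ∀ V : X.Opens, V ≤ U → Γ(M, V) →+ Γ(N, V))
    (hlin : ∀ (V : X.Opens) (hV : V ≤ U) (a : Γ(X, V)) (x : Γ(M, V)), A V hV (a • x) = a • A V hV x)
    (hnat : ∀ (V W : X.Opens) (h : W ≤ V) (hV : V ≤ U) (x : Γ(M, V)),
      A W (h.trans hV) (res M h x) = res N h (A V hV x))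
    (hM : LocOn M U) (h0 : ∀ x, A U le_rfl x = 0) (V : X.Opens) (hV : V ≤ U) (x : Γ(M, V)) :
    A V hV x = 0 := by
  have hc := basis_cover hU V
  rw [inf_eq_right.2 hV] at hc
  refine ext_cover N _ V hc (fun r => r.2) _ _ fun r => ?_
  rw [map_zero, ← hnat]
  obtain ⟨n, t, ht⟩ := hM.ex r.1 (res M r.2 x)
  have h1 := hnat U _ (X.basicOpen_le r.1) le_rfl t
  rw [h0, map_zero, ht, hlin] at h1
  exact ((isUnit_rs_basicOpen r.1).pow _).smul_eq_zero.1 h1

theorem full_of_counit {C D : Type*} [Category C] [Category D] {L : C ⥤ D} {R : D ⥤ C}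
    (adj : L ⊣ R) (M N : D) (hM : IsIso (adj.counit.app M)) (g : R.obj M ⟶ R.obj N) :
    ∃ β : M ⟶ N, R.map β = g := by
  refine ⟨inv (adj.counit.app M) ≫ L.map g ≫ adj.counit.app N, ?_⟩
  have h1 : R.map (inv (adj.counit.app M)) = adj.unit.app (R.obj M) := by
    rw [Functor.map_inv]
    exact (IsIso.eq_inv_of_inv_hom_id (adj.right_triangle_components M)).symm
  rw [Functor.map_comp, Functor.map_comp, h1, ← Category.assoc]
  have h2 := adj.unit.naturality g
  dsimp at h2
  rw [← h2, Category.assoc, adj.right_triangle_components, Category.comp_id]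

/-- morphisms of modules on `Spec R` out of a quasi-coherent one -/
theorem exists_hom_spec {R : CommRingCat.{u}} (M N : (Spec R).Modules) [h : IsIso M.fromTildeΓ]
    (g : (moduleSpecΓFunctor (R := R)).obj M ⟶ (moduleSpecΓFunctor (R := R)).obj N) :
    ∃ β : M ⟶ N, (moduleSpecΓFunctor (R := R)).map β = g :=
  full_of_counit (tilde.adjunction (R := R)) M N h g

/-- the action of a morphism of restricted modules on sections -/
noncomputable def rapp {Y : Scheme.{u}} (f : Y ⟶ X) [IsOpenImmersion f] {F G : X.Modules}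
    (β : F.restrict f ⟶ G.restrict f) (W : Y.Opens) : Γ(F, f ''ᵁ W) →+ Γ(G, f ''ᵁ W) :=
  (β.app W).hom

/-- a morphism of restricted modules is linear over the functions on `X` -/
lemma rapp_smul {Y : Scheme.{u}} (f : Y ⟶ X) [IsOpenImmersion f] {F G : X.Modules}
    (β : F.restrict f ⟶ G.restrict f) (W : Y.Opens) (c : Γ(X, f ''ᵁ W))
    (x : Γ(F, f ''ᵁ W)) : rapp f β W (c • x) = c • rapp f β W x := by
  have h1 : (f.appIso W).inv ((f.appIso W).hom c) = c := by
    rw [← CommRingCat.comp_apply, Iso.hom_inv_id, CommRingCat.id_apply]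
  have h2 := Scheme.Modules.Hom.app_smul β ((f.appIso W).hom c)
    (show Γ(F.restrict f, W) from x)
  have h3 : rapp f β W ((f.appIso W).inv ((f.appIso W).hom c) • x) =
    (f.appIso W).inv ((f.appIso W).hom c) • rapp f β W x := h2
  rwa [h1] at h3

lemma rapp_res {Y : Scheme.{u}} (f : Y ⟶ X) [IsOpenImmersion f] {F G : X.Modules}
    (β : F.restrict f ⟶ G.restrict f) {W W' : Y.Opens} (h : W' ≤ W)
    (h' : f ''ᵁ W' ≤ f ''ᵁ W) (x : Γ(F, f ''ᵁ W)) :
    rapp f β W' (res F h' x) = res G h' (rapp f β W x) :=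
  (res_app β h _).symm

theorem exists_rapp (F G : X.Modules) {U : X.Opens} (hU : IsAffineOpen U)
    (h2 : IsIso (F.restrict hU.fromSpec).fromTildeΓ)
    (g : Γ(F, U) →+ Γ(G, U)) (hg : ∀ (a : Γ(X, U)) (x : Γ(F, U)), g (a • x) = a • g x)
    (e1 : hU.fromSpec ''ᵁ ⊤ = U) :
    ∃ β : F.restrict hU.fromSpec ⟶ G.restrict hU.fromSpec,
      ∀ x, rapp hU.fromSpec β ⊤ x = res G e1.le (g (res F e1.ge x)) := by
  let g' : ((moduleSpecΓFunctor (R := Γ(X, U))).obj (F.restrict hU.fromSpec)) →ₗ[Γ(X, U)]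
      ((moduleSpecΓFunctor (R := Γ(X, U))).obj (G.restrict hU.fromSpec)) :=
    { toFun := fun x => res G e1.le (g (res F e1.ge x))
      map_add' := fun x y => by
        show res G e1.le (g (res F e1.ge ((show Γ(F, hU.fromSpec ''ᵁ ⊤) from x) +
          (show Γ(F, hU.fromSpec ''ᵁ ⊤) from y)))) = _
        rw [map_add, map_add, map_add]
        rfl
      map_smul' := fun a x => by
        refine (congrArg (fun z : Γ(F, hU.fromSpec ''ᵁ ⊤) => res G e1.le (g (res F e1.ge z)))
          (smul_restrict hU ⊤ a x)).trans ?_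
        show res G e1.le (g (res F e1.ge (rs (img_le hU ⊤) a •
          (show Γ(F, hU.fromSpec ''ᵁ ⊤) from x)))) = _
        rw [res_smul, rs_rs, rs_self, hg, res_smul]
        exact (smul_restrict (M := G) hU ⊤ a _).symm }
  let g'' := ModuleCat.ofHom g'
  obtain ⟨β, hβ⟩ := exists_hom_spec (F.restrict hU.fromSpec) (G.restrict hU.fromSpec) g''
  refine ⟨β, fun x => ?_⟩
  have h4 : (moduleSpecΓFunctor (R := Γ(X, U))).map β
        (show Γ(F, hU.fromSpec ''ᵁ ⊤) from x) = g'
        (show Γ(F, hU.fromSpec ''ᵁ ⊤) from x) := by rw [hβ]; rfl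
  exact h4

/-- D5: extension of a map of sections over an affine open to all smaller opens -/
theorem exists_local_hom' (F G : X.Modules) {U : X.Opens} (hU : IsAffineOpen U)
    (h2 : IsIso (F.restrict hU.fromSpec).fromTildeΓ)
    (g : Γ(F, U) →+ Γ(G, U)) (hg : ∀ (a : Γ(X, U)) (x : Γ(F, U)), g (a • x) = a • g x) :
    ∃ A : ∀ V : X.Opens, V ≤ U → Γ(F, V) →+ Γ(G, V),
      (∀ (V : X.Opens) (hV : V ≤ U) (a : Γ(X, V)) (x : Γ(F, V)),
        A V hV (a • x) = a • A V hV x) ∧
      (∀ (V W : X.Opens) (h : W ≤ V) (hV : V ≤ U) (x : Γ(F, V)),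
        A W (h.trans hV) (res F h x) = res G h (A V hV x)) ∧ ∀ x, A U le_rfl x = g x := by
  have e1 : hU.fromSpec ''ᵁ ⊤ = U := by simp
  obtain ⟨β, hβ⟩ := exists_rapp F G hU h2 g hg e1
  have e2 : ∀ V : X.Opens, V ≤ U → hU.fromSpec ''ᵁ (hU.fromSpec ⁻¹ᵁ V) = V := by
    intro V hV
    rw [Scheme.Hom.image_preimage_eq_opensRange_inf, hU.opensRange_fromSpec]
    exact inf_eq_right.2 hV
  refine ⟨fun V hV => (res G (e2 V hV).ge).comp
    ((rapp hU.fromSpec β (hU.fromSpec ⁻¹ᵁ V)).comp (res F (e2 V hV).le)), ?_, ?_, ?_⟩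
  · intro V hV a x
    show res G _ (rapp _ _ _ (res F _ (a • x))) = a • res G _ (rapp _ _ _ (res F _ x))
    rw [res_smul, rapp_smul, res_smul, rs_rs, rs_self]
  · intro V W h hV x
    show res G _ (rapp _ _ _ (res F _ (res F _ x))) = res G _ (res G _ (rapp _ _ _ (res F _ x)))
    have h5 : hU.fromSpec ⁻¹ᵁ W ≤ hU.fromSpec ⁻¹ᵁ V := hU.fromSpec.preimage_mono h
    rw [res_res, res_res, ← res_res F (e2 V hV).le (hU.fromSpec.image_mono h5),
      rapp_res _ _ h5, res_res]
  · intro x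
    show res G _ (rapp _ _ _ (res F _ x)) = g x
    have e3 : hU.fromSpec ⁻¹ᵁ U = ⊤ := hU.fromSpec_preimage_self
    rw [← res_res F e1.le (hU.fromSpec.image_mono e3.le), rapp_res _ _ e3.le, hβ, res_res,
      res_res, res_res, res_self, res_self]

/-- D5 for quasi-coherent modules -/
theorem exists_local_hom (F G : X.Modules) [F.IsQuasicoherent] {U : X.Opens} (hU : IsAffineOpen U)
    (g : Γ(F, U) →+ Γ(G, U)) (hg : ∀ (a : Γ(X, U)) (x : Γ(F, U)), g (a • x) = a • g x) :
    ∃ A : ∀ V : X.Opens, V ≤ U → Γ(F, V) →+ Γ(G, V),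
      (∀ (V : X.Opens) (hV : V ≤ U) (a : Γ(X, V)) (x : Γ(F, V)),
        A V hV (a • x) = a • A V hV x) ∧
      (∀ (V W : X.Opens) (h : W ≤ V) (hV : V ≤ U) (x : Γ(F, V)),
        A W (h.trans hV) (res F h x) = res G h (A V hV x)) ∧ ∀ x, A U le_rfl x = g x := by
  have h1 : (F.restrict hU.fromSpec).IsQuasicoherent := inferInstance
  exact exists_local_hom' F G hU inferInstance g hg

/-- D7: morphisms into a module which is extended from an affine open -/
theorem exists_hom_local (F K : X.Modules) {U : X.Opens} (hU : IsAffineOpen U)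
    (h2 : IsIso (F.restrict hU.fromSpec).fromTildeΓ)
    (hK : ∀ V, Function.Bijective (res K (inf_le_left : V ⊓ U ≤ V)))
    (g : Γ(F, U) →+ Γ(K, U)) (hg : ∀ (a : Γ(X, U)) (x : Γ(F, U)), g (a • x) = a • g x) :
    ∃ φ : F ⟶ K, ∀ x, φ.app U x = g x := by
  obtain ⟨A, hA1, hA2, hA3⟩ := exists_local_hom' F K hU h2 g hg
  choose τ hτ using fun (V : X.Opens) (x : Γ(F, V)) =>
    (hK V).2 (A (V ⊓ U) inf_le_right (res F inf_le_left x))
  refine ⟨homMk (fun V => AddMonoidHom.mk' (τ V) ?_) ?_ ?_, ?_⟩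
  · intro x y
    apply (hK V).1
    rw [hτ, map_add, map_add, map_add, hτ, hτ]
  · intro V a x
    apply (hK V).1
    show res K _ (τ V (a • x)) = res K _ (a • τ V x)
    rw [hτ, res_smul, hA1, res_smul, hτ]
  · intro V W h x
    apply (hK W).1
    show res K _ (τ W (res F h x)) = res K _ (res K h (τ V x))
    have h1 : W ⊓ U ≤ V ⊓ U := inf_le_inf_right _ h
    rw [hτ, res_res, res_res, ← res_res K (inf_le_left : V ⊓ U ≤ V) h1, hτ,
      ← hA2 _ _ h1 inf_le_right, res_res]
  · intro x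
    show τ U x = g x
    apply (hK U).1
    rw [hτ, hA2 U _ inf_le_left le_rfl, hA3]

end MP55c1e7.B0
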