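import Pool.Agent.Lib.MP_55c1e7_ag.B0.B

/-!
Kernels, cokernels and finite products of quasi-coherent modules; epimorphisms of quasi-coherent
modules are surjective on affine open sets.
-/

set_option autoImplicit false

open AlgebraicGeometry CategoryTheory Limits TopologicalSpace Opposite

universe u

namespace MP55c1e7.B0

/-! ### Modules on a spectrum -/

section Spec

variable {R : CommRingCat.{u}}

lemma isIso_fromTilde_app (M : (Spec R).Modules) (hM : M.IsQuasicoherent) :
    IsIso ((Scheme.Modules.fromTildeΓNatTrans (R := R)).app M) :=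
  Scheme.Modules.isIso_fromTildeΓ_of_isQuasicoherent M

/-- An epimorphism of quasi-coherent modules on a spectrum is surjective on global sections. -/
lemma surjective_top_of_epi {M N : (Spec R).Modules} (hM : M.IsQuasicoherent)
    (hN : N.IsQuasicoherent) (e : M ⟶ N) [Epi e] : Function.Surjective (e.app ⊤) := by
  have i1 := isIso_fromTilde_app M hM
  have i2 := isIso_fromTilde_app N hN
  have h1 : Epi ((moduleSpecΓFunctor ⋙ tilde.functor R).map e) := by
    have h2 := (Scheme.Modules.fromTildeΓNatTrans (R := R)).naturality e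
    have h5 : Epi ((moduleSpecΓFunctor ⋙ tilde.functor R).map e ≫
        (Scheme.Modules.fromTildeΓNatTrans (R := R)).app N) := by
      rw [h2]
      exact epi_comp _ e
    have h3 : (moduleSpecΓFunctor ⋙ tilde.functor R).map e =
        ((moduleSpecΓFunctor ⋙ tilde.functor R).map e ≫
        (Scheme.Modules.fromTildeΓNatTrans (R := R)).app N) ≫
        inv ((Scheme.Modules.fromTildeΓNatTrans (R := R)).app N) := by
      rw [Category.assoc, IsIso.hom_inv_id, Category.comp_id]
    rw [h3]
    exact epi_comp _ _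
  have h4 : Epi (moduleSpecΓFunctor.map e) := (tilde.functor R).epi_of_epi_map h1
  rw [ModuleCat.epi_iff_surjective] at h4
  exact h4

/-- A cokernel of a morphism of quasi-coherent modules on a spectrum is quasi-coherent. -/
lemma isQuasicoherent_cokernel_spec {M N : (Spec R).Modules} (hM : M.IsQuasicoherent)
    (hN : N.IsQuasicoherent) (f : M ⟶ N) : (cokernel f).IsQuasicoherent := by
  have i1 := isIso_fromTilde_app M hM
  have i2 := isIso_fromTilde_app N hN
  have h2 := (Scheme.Modules.fromTildeΓNatTrans (R := R)).naturality f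
  let g := moduleSpecΓFunctor.map f
  let e1 : cokernel ((tilde.functor R).map g) ≅ cokernel f :=
    cokernel.mapIso _ _ (asIso ((Scheme.Modules.fromTildeΓNatTrans (R := R)).app M))
      (asIso ((Scheme.Modules.fromTildeΓNatTrans (R := R)).app N)) h2
  let e2 : (tilde.functor R).obj (cokernel g) ≅ cokernel ((tilde.functor R).map g) :=
    PreservesCokernel.iso _ _
  have h3 : (tilde.functor R).essImage (cokernel f) := ⟨_, ⟨e2 ≪≫ e1⟩⟩
  rw [essImage_tilde] at h3
  exact h3

end Spec

/-! ### Modules on a scheme -/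

section General

variable {X : Scheme.{u}}

/-- Localisation property from the restriction to the spectrum. -/
theorem locOn_of_restrict (M : X.Modules) (U : X.Opens)
    (hU : IsAffineOpen U) (h1 : (M.restrict hU.fromSpec).IsQuasicoherent) : LocOn M U := by
  have h2 : IsIso (M.restrict hU.fromSpec).fromTildeΓ := inferInstance
  rw [isIso_fromTildeΓ_iff_isLocalizing] at h2
  have e1 : hU.fromSpec ''ᵁ ⊤ = U := by simp
  have e2 : ∀ r : Γ(X, U), hU.fromSpec ''ᵁ (PrimeSpectrum.basicOpen r) = X.basicOpen r := by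
    intro r
    exact hU.fromSpec_image_basicOpen r
  constructor
  · intro r s
    obtain ⟨⟨x, ⟨_, n, rfl⟩⟩, hx⟩ := (h2 r).surj (res M (e2 r).le s :
      Γ(M.restrict hU.fromSpec, PrimeSpectrum.basicOpen r))
    refine ⟨n, res M e1.ge (show Γ(M, hU.fromSpec ''ᵁ ⊤) from x), ?_⟩
    have h3 : rs (img_le hU (PrimeSpectrum.basicOpen r)) (r ^ n) • res M (e2 r).le s =
      res M (hU.fromSpec.image_mono le_top) (show Γ(M, hU.fromSpec ''ᵁ ⊤) from x) := by
      refine (smul_restrict hU _ _ _).symm.trans ?_
      exact hx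
    rw [res_res]
    apply_fun res M (e2 r).ge at h3
    rw [res_res, res_smul, res_res, rs_rs, res_self] at h3
    rw [← h3, map_pow]
  · intro r t ht
    have h3 := (h2 r).exists_of_eq (x₁ := (res M e1.le t : Γ(M.restrict hU.fromSpec, ⊤)))
      (x₂ := 0) (by
        rw [map_zero]
        show res M (hU.fromSpec.image_mono le_top) (res M e1.le t) = 0
        rw [res_res, ← res_res M (X.basicOpen_le r) (e2 r).le, ht, map_zero])
    obtain ⟨⟨_, n, rfl⟩, hn⟩ := h3
    refine ⟨n, ?_⟩
    rw [smul_zero] at hn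
    have h4 : rs (img_le hU ⊤) (r ^ n) • res M e1.le t = 0 := by
      refine (smul_restrict hU _ _ _).symm.trans ?_
      exact hn
    apply_fun res M e1.ge at h4
    rw [res_smul, res_res, rs_rs, res_self, map_zero, rs_self] at h4
    exact h4

/-- A module with the localisation property on all affine open sets is quasi-coherent. -/
theorem isQuasicoherent_of_forall_locOn (M : X.Modules)
    (h : ∀ U : X.Opens, IsAffineOpen U → LocOn M U) : M.IsQuasicoherent :=
  isQuasicoherent_of_locOn M (fun U : X.affineOpens => U.1) (fun U => U.2)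
    (iSup_affineOpens_eq_top X) (fun U => h U.1 U.2)

/-- The map on sections as a linear map. -/
noncomputable def appL {M N : X.Modules} (φ : M ⟶ N) (U : X.Opens) :
    Γ(M, U) →ₗ[Γ(X, U)] Γ(N, U) where
  toFun x := φ.app U x
  map_add' := map_add _
  map_smul' r x := φ.app_smul r x

@[simp]
lemma appL_apply {M N : X.Modules} (φ : M ⟶ N) (U : X.Opens) (x : Γ(M, U)) :
    appL φ U x = φ.app U x := rfl

/-- An epimorphism of quasi-coherent modules is surjective on affine open sets. -/
theorem surjective_app_of_epi {M N : X.Modules} (hM : M.IsQuasicoherent)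
    (hN : N.IsQuasicoherent) (e : M ⟶ N) [Epi e] {U : X.Opens} (hU : IsAffineOpen U) :
    Function.Surjective (e.app U) := by
  have h1 : (M.restrict hU.fromSpec).IsQuasicoherent := inferInstance
  have h2 : (N.restrict hU.fromSpec).IsQuasicoherent := inferInstance
  have h3 : Epi ((Scheme.Modules.restrictFunctor hU.fromSpec).map e) := inferInstance
  have h4 := surjective_top_of_epi h1 h2 ((Scheme.Modules.restrictFunctor hU.fromSpec).map e)
  have e1 : hU.fromSpec ''ᵁ ⊤ = U := by simp
  have h5 : Function.Surjective (e.app (hU.fromSpec ''ᵁ ⊤)) := h4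
  rwa [e1] at h5

theorem isQuasicoherent_cokernel {M N : X.Modules} (hM : M.IsQuasicoherent)
    (hN : N.IsQuasicoherent) (f : M ⟶ N) : (cokernel f).IsQuasicoherent := by
  refine isQuasicoherent_of_forall_locOn _ fun U hU => locOn_of_restrict _ U hU ?_
  have h1 : (M.restrict hU.fromSpec).IsQuasicoherent := inferInstance
  have h2 : (N.restrict hU.fromSpec).IsQuasicoherent := inferInstance
  have h3 := isQuasicoherent_cokernel_spec h1 h2
    ((Scheme.Modules.restrictFunctor hU.fromSpec).map f)
  let e := PreservesCokernel.iso (Scheme.Modules.restrictFunctor hU.fromSpec) f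
  exact (SheafOfModules.isQuasicoherent (Spec Γ(X, U)).ringCatSheaf).prop_of_iso e.symm h3

/-- Sections over an open set, as abelian groups. -/
noncomputable def secF (X : Scheme.{u}) (U : X.Opens) : X.Modules ⥤ Ab.{u} :=
  Scheme.Modules.toPresheaf X ⋙ (evaluation _ _).obj (op U)

instance (U : X.Opens) : PreservesFiniteLimits (secF X U) :=
  have : PreservesFiniteLimits (Scheme.Modules.toPresheaf X) := inferInstance
  have : PreservesFiniteLimits ((evaluation (Opens X)ᵒᵖ Ab.{u}).obj (op U)) := inferInstance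
  comp_preservesFiniteLimits (Scheme.Modules.toPresheaf X) _

instance (U : X.Opens) : (secF X U).Additive where
  map_add := rfl

/-- A monomorphism is injective on sections. -/
lemma injective_app_of_mono {K M : X.Modules} (i : K ⟶ M) [Mono i] (U : X.Opens) :
    Function.Injective (i.app U) := by
  have h : Mono ((secF X U).map i) := inferInstance
  rw [AddCommGrpCat.mono_iff_injective] at h
  exact h

/-- Left exactness of the sections. -/
lemma exists_app_of_exact (S : ShortComplex X.Modules) (hS : S.Exact) [Mono S.f] (U : X.Opens)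
    (x : Γ(S.X₂, U)) (hx : S.g.app U x = 0) : ∃ y : Γ(S.X₁, U), S.f.app U y = x := by
  have h := hS.map_of_mono_of_preservesKernel (secF X U) inferInstance inferInstance
  rw [ShortComplex.ab_exact_iff] at h
  exact h x hx

lemma exists_kernel_of_app_eq_zero {M N : X.Modules} (f : M ⟶ N) (U : X.Opens)
    (x : Γ(M, U)) (hx : f.app U x = 0) : ∃ y : Γ(kernel f, U), (kernel.ι f).app U y = x :=
  exists_app_of_exact (ShortComplex.mk (kernel.ι f) f (kernel.condition f))
    (ShortComplex.exact_kernel f) U x hx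

lemma locOn_kernel {M N : X.Modules} (f : M ⟶ N) {U : X.Opens} (hM : LocOn M U)
    (hN : LocOn N U) : LocOn (kernel f) U := by
  have hw : ∀ (V : X.Opens) (y : Γ(kernel f, V)), f.app V ((kernel.ι f).app V y) = 0 := by
    intro V y
    rw [← ConcreteCategory.comp_apply, ← Scheme.Modules.Hom.comp_app, kernel.condition]
    rfl
  constructor
  · intro r s
    obtain ⟨n, t, ht⟩ := hM.ex r ((kernel.ι f).app _ s)
    obtain ⟨m, hm⟩ := hN.un r (f.app U t) (by
      rw [res_app, ht, Scheme.Modules.Hom.app_smul, hw, smul_zero])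
    obtain ⟨y, hy⟩ := exists_kernel_of_app_eq_zero f U (r ^ m • t) (by
      rw [Scheme.Modules.Hom.app_smul, hm])
    refine ⟨n + m, y, injective_app_of_mono (kernel.ι f) _ ?_⟩
    rw [← res_app, hy, res_smul, ht, Scheme.Modules.Hom.app_smul, map_pow, smul_smul, ← pow_add,
      add_comm]
  · intro r t ht
    obtain ⟨n, hn⟩ := hM.un r ((kernel.ι f).app _ t) (by rw [res_app, ht, map_zero])
    refine ⟨n, injective_app_of_mono (kernel.ι f) _ ?_⟩
    rw [Scheme.Modules.Hom.app_smul, hn, map_zero]

theorem isQuasicoherent_kernel {M N : X.Modules} (hM : M.IsQuasicoherent)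
    (hN : N.IsQuasicoherent) (f : M ⟶ N) : (kernel f).IsQuasicoherent :=
  isQuasicoherent_of_forall_locOn _ fun U hU =>
    locOn_kernel f (locOn_of_isQuasicoherent M U hU) (locOn_of_isQuasicoherent N U hU)

/-! ### Coherent modules -/

/-- Quasi-coherent modules whose sections over the affine open sets are finitely generated. -/
def cohP (X : Scheme.{u}) : ObjectProperty X.Modules := fun M =>
  SheafOfModules.IsQuasicoherent.{u} M ∧
    ∀ U : X.Opens, IsAffineOpen U → Module.Finite Γ(X, U) Γ(M, U)

instance : (cohP X).IsClosedUnderIsomorphisms where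
  of_iso {M N} e h := by
    refine ⟨(SheafOfModules.isQuasicoherent X.ringCatSheaf).prop_of_iso e h.1, fun U hU => ?_⟩
    have := h.2 U hU
    refine Module.Finite.of_surjective (appL e.hom U) fun y => ⟨e.inv.app U y, ?_⟩
    rw [appL_apply, ← ConcreteCategory.comp_apply, ← Scheme.Modules.Hom.comp_app, e.inv_hom_id]
    rfl

lemma cohP_zero (Z : X.Modules) (hZ : IsZero Z) : cohP X Z := by
  have h0 : ∀ (U : X.Opens) (x : Γ(Z, U)), x = 0 := by
    intro U x
    have h1 : (𝟙 Z : Z ⟶ Z) = 0 := hZ.eq_of_src _ _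
    have h2 : (𝟙 Z : Z ⟶ Z).app U x = (0 : Z ⟶ Z).app U x := by rw [h1]
    exact h2
  refine ⟨isQuasicoherent_of_forall_locOn _ fun U hU => ⟨fun r s => ⟨0, 0, ?_⟩,
    fun r t ht => ⟨0, h0 _ _⟩⟩, fun U hU => ?_⟩
  · rw [h0 _ s, map_zero, smul_zero]
  · have : Subsingleton Γ(Z, U) := ⟨fun x y => by rw [h0 U x, h0 U y]⟩
    infer_instance

instance : (cohP X).ContainsZero where
  exists_zero := ⟨_, isZero_zero _, cohP_zero _ (isZero_zero _)⟩

instance [IsLocallyNoetherian X] : (cohP X).IsClosedUnderKernels where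
  kernels_le := by
    rintro _ ⟨f, k, hk, hf⟩
    refine (cohP X).prop_of_iso (IsLimit.conePointUniqueUpToIso (kernelIsKernel f) hk) ?_
    refine ⟨isQuasicoherent_kernel hf.1.1 hf.2.1 f, fun U hU => ?_⟩
    have : IsNoetherianRing Γ(X, U) := IsLocallyNoetherian.component_noetherian ⟨U, hU⟩
    have := hf.1.2 U hU
    exact Module.Finite.of_injective (appL (kernel.ι f) U) (injective_app_of_mono _ U)

instance : (cohP X).IsClosedUnderCokernels where
  cokernels_le := by
    rintro _ ⟨f, k, hk, hf⟩
    refine (cohP X).prop_of_iso (IsColimit.coconePointUniqueUpToIso (cokernelIsCokernel f) hk) ?_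
    have h1 := isQuasicoherent_cokernel hf.1.1 hf.2.1 f
    refine ⟨h1, fun U hU => ?_⟩
    have := hf.2.2 U hU
    exact Module.Finite.of_surjective (appL (cokernel.π f) U)
      (surjective_app_of_epi hf.2.1 h1 _ hU)

lemma biprod_sec {M N : X.Modules} (U : X.Opens) (x : Γ(M ⊞ N, U)) :
    (biprod.inl : M ⟶ M ⊞ N).app U ((biprod.fst : M ⊞ N ⟶ M).app U x) +
      (biprod.inr : N ⟶ M ⊞ N).app U ((biprod.snd : M ⊞ N ⟶ N).app U x) = x := by
  have h1 : (biprod.fst ≫ biprod.inl + biprod.snd ≫ biprod.inr : M ⊞ N ⟶ M ⊞ N) = 𝟙 _ :=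
    biprod.total
  have h2 := congr(($h1).app U x)
  exact h2

lemma fst_inl_sec {M N : X.Modules} (U : X.Opens) (x : Γ(M, U)) :
    (biprod.fst : M ⊞ N ⟶ M).app U ((biprod.inl : M ⟶ M ⊞ N).app U x) = x := by
  have h1 : (biprod.inl ≫ biprod.fst : M ⟶ M) = 𝟙 _ := biprod.inl_fst (Y := N)
  exact congr(($h1).app U x)

lemma locOn_biprod {M N : X.Modules} {U : X.Opens} (hM : LocOn M U)
    (hN : LocOn N U) : LocOn (M ⊞ N) U := by
  constructor
  · intro r s
    obtain ⟨n, t, ht⟩ := hM.ex r ((biprod.fst : M ⊞ N ⟶ M).app _ s)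
    obtain ⟨m, t', ht'⟩ := hN.ex r ((biprod.snd : M ⊞ N ⟶ N).app _ s)
    refine ⟨n + m, (biprod.inl : M ⟶ M ⊞ N).app U (r ^ m • t) +
      (biprod.inr : N ⟶ M ⊞ N).app U (r ^ n • t'), ?_⟩
    rw [map_add, res_app, res_app, res_smul, res_smul, ht, ht', map_pow, map_pow, smul_smul,
      smul_smul, ← pow_add, ← pow_add, Scheme.Modules.Hom.app_smul, Scheme.Modules.Hom.app_smul,
      add_comm m n, ← smul_add, biprod_sec]
  · intro r t ht
    obtain ⟨n, hn⟩ := hM.un r ((biprod.fst : M ⊞ N ⟶ M).app _ t) (by rw [res_app, ht, map_zero])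
    obtain ⟨m, hm⟩ := hN.un r ((biprod.snd : M ⊞ N ⟶ N).app _ t) (by rw [res_app, ht, map_zero])
    refine ⟨n + m, ?_⟩
    have h1 : (biprod.fst : M ⊞ N ⟶ M).app U (r ^ (n + m) • t) = 0 := by
      rw [Scheme.Modules.Hom.app_smul, pow_add, mul_comm, mul_smul, hn, smul_zero]
    have h2 : (biprod.snd : M ⊞ N ⟶ N).app U (r ^ (n + m) • t) = 0 := by
      rw [Scheme.Modules.Hom.app_smul, pow_add, mul_smul, hm, smul_zero]
    rw [← biprod_sec U (r ^ (n + m) • t), h1, h2, map_zero, map_zero, add_zero]

lemma cohP_biprod {M N : X.Modules} (hM : cohP X M) (hN : cohP X N) : cohP X (M ⊞ N) := by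
  refine ⟨isQuasicoherent_of_forall_locOn _ fun U hU =>
    have := hM.1
    have := hN.1
    locOn_biprod (locOn_of_isQuasicoherent M U hU) (locOn_of_isQuasicoherent N U hU),
    fun U hU => ?_⟩
  have := hM.2 U hU
  have := hN.2 U hU
  refine Module.Finite.of_surjective
    ((appL (biprod.inl : M ⟶ M ⊞ N) U).coprod (appL (biprod.inr : N ⟶ M ⊞ N) U))
    fun x => ⟨((biprod.fst : M ⊞ N ⟶ M).app U x, (biprod.snd : M ⊞ N ⟶ N).app U x), ?_⟩
  exact biprod_sec U x

instance : (cohP X).IsClosedUnderBinaryProducts where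
  limitsOfShape_le := by
    rintro Z ⟨p⟩
    have h1 := cohP_biprod (p.prop_diag_obj ⟨WalkingPair.left⟩)
      (p.prop_diag_obj ⟨WalkingPair.right⟩)
    refine (cohP X).prop_of_iso ?_ h1
    refine (biprod.isoProd _ _) ≪≫ ?_
    exact (IsLimit.conePointsIsoOfNatIso (limit.isLimit _) p.isLimit
      ((diagramIsoPair p.diag).symm))

instance : (cohP X).IsClosedUnderFiniteProducts := .mk'

/-- Coherent modules on a locally noetherian scheme form an abelian category. -/
noncomputable instance [IsLocallyNoetherian X] : Abelian (cohP X).FullSubcategory := inferInstance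

end General

end MP55c1e7.B0
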