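import Pool.Agent.Lib.MP_55c1e7_ag.B0.B1

open AlgebraicGeometry CategoryTheory Limits TopologicalSpace Opposite

universe u

namespace MP55c1e7.B0

variable {X : Scheme.{u}}

/-- A family of affine open sets, indexed by a meet-semilattice, closed under intersections, the
smaller ones being basic in the bigger ones. -/
structure AffSys (X : Scheme.{u}) (P : Type u) [SemilatticeInf P] where
  U : P → X.Opens
  aff : ∀ p, IsAffineOpen (U p)
  inf : ∀ p q, U (p ⊓ q) = U p ⊓ U q
  cov : ⨆ p, U p = ⊤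
  basic : ∀ p q, p ≤ q → ∃ r : Γ(X, U q), X.basicOpen r = U p

namespace AffSys

variable {P : Type u} [SemilatticeInf P] (S : AffSys X P)

lemma mono {p q : P} (h : p ≤ q) : S.U p ≤ S.U q := by
  have h1 := S.inf p q
  rw [inf_eq_left.2 h] at h1
  rw [h1]
  exact inf_le_right

lemma cover (V : X.Opens) : V ≤ ⨆ p, (S.U p ⊓ V) := by
  rw [← iSup_inf_eq, S.cov, top_inf_eq]

/-- two local maps which agree on the bigger open agree on the smaller one -/
theorem agree {F G : X.Modules} (hF : ∀ p, LocOn F (S.U p)) {p q : P} (h : p ≤ q)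
    (A B : ∀ V : X.Opens, V ≤ S.U p → Γ(F, V) →+ Γ(G, V))
    (hA : ∀ (V : X.Opens) (hV : V ≤ S.U p) (a : Γ(X, V)) (x : Γ(F, V)),
        A V hV (a • x) = a • A V hV x)
    (hB : ∀ (V : X.Opens) (hV : V ≤ S.U p) (a : Γ(X, V)) (x : Γ(F, V)),
        B V hV (a • x) = a • B V hV x)
    (hA' : ∀ (V W : X.Opens) (h : W ≤ V) (hV : V ≤ S.U p) (x : Γ(F, V)),
        A W (h.trans hV) (res F h x) = res G h (A V hV x))
    (hB' : ∀ (V W : X.Opens) (h : W ≤ V) (hV : V ≤ S.U p) (x : Γ(F, V)),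
        B W (h.trans hV) (res F h x) = res G h (B V hV x))
    (h0 : ∀ x : Γ(F, S.U q), A (S.U p) le_rfl (res F (S.mono h) x) =
      B (S.U p) le_rfl (res F (S.mono h) x))
    (V : X.Opens) (hV : V ≤ S.U p) (x : Γ(F, V)) : A V hV x = B V hV x := by
  have key : ∀ x, A (S.U p) le_rfl x = B (S.U p) le_rfl x := by
    intro x
    obtain ⟨r, hr⟩ := S.basic p q h
    obtain ⟨n, t, ht⟩ := (hF q).ex r (res F hr.le x)
    have h1 : res F (S.mono h) t = rs (S.mono h) r ^ n • x := by
      have h2 := congrArg (res F hr.ge) ht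
      rwa [res_smul, res_res, res_res, map_pow, rs_rs, res_self] at h2
    have h3 := h0 t
    rw [h1, hA, hB] at h3
    have hu : IsUnit (rs (S.mono h) r) := by
      have h4 := (isUnit_rs_basicOpen r).map (rs hr.ge)
      rwa [rs_rs] at h4
    exact (hu.pow n).smul_left_cancel.1 h3
  have h2 := zero_of_le (S.aff p) (fun V hV => A V hV - B V hV)
    (fun V hV a x => by
      rw [AddMonoidHom.sub_apply, AddMonoidHom.sub_apply, hA, hB, smul_sub])
    (fun V W h hV x => by
      rw [AddMonoidHom.sub_apply, AddMonoidHom.sub_apply, hA', hB', map_sub]) (hF p)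
    (fun x => by rw [AddMonoidHom.sub_apply, key, sub_self]) V hV x
  exact sub_eq_zero.1 h2

/-- fullness -/
theorem exists_hom (F G : X.Modules) [F.IsQuasicoherent]
    (g : ∀ p, Γ(F, S.U p) →+ Γ(G, S.U p))
    (hg : ∀ p (a : Γ(X, S.U p)) (x : Γ(F, S.U p)), g p (a • x) = a • g p x)
    (hc : ∀ p q (h : p ≤ q) (x : Γ(F, S.U q)),
      g p (res F (S.mono h) x) = res G (S.mono h) (g q x)) :
    ∃ φ : F ⟶ G, ∀ p (x : Γ(F, S.U p)), φ.app (S.U p) x = g p x := by
  have hF : ∀ p, LocOn F (S.U p) := fun p => locOn_of_isQuasicoherent F _ (S.aff p)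
  choose A hA1 hA2 hA3 using fun p => exists_local_hom F G (S.aff p) (g p) (hg p)
  -- compatibility
  have hcomp : ∀ p q (h : p ≤ q) (V : X.Opens) (hV : V ≤ S.U p) (x : Γ(F, V)),
      A p V hV x = A q V (hV.trans (S.mono h)) x := by
    intro p q h V hV x
    refine S.agree hF h (fun V hV => A p V hV) (fun V hV => A q V (hV.trans (S.mono h)))
      (hA1 p) (fun V hV => hA1 q V _) (hA2 p) (fun V W h' hV => hA2 q V W h' _) ?_ V hV x
    intro y
    show A p (S.U p) le_rfl _ = A q (S.U p) _ _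
    rw [hA3, hc p q h, hA2 q (S.U q) (S.U p) (S.mono h) le_rfl, hA3]
  have hcomp2 : ∀ p q (V : X.Opens) (hV : V ≤ S.U p) (hV' : V ≤ S.U q) (x : Γ(F, V)),
      A p V hV x = A q V hV' x := by
    intro p q V hV hV' x
    have h1 : V ≤ S.U (p ⊓ q) := by rw [S.inf]; exact le_inf hV hV'
    rw [← hcomp (p ⊓ q) p inf_le_left V h1, ← hcomp (p ⊓ q) q inf_le_right V h1]
  -- gluing
  have key : ∀ (V : X.Opens) (x : Γ(F, V)), ∃! t : Γ(G, V), ∀ p,
      res G (inf_le_right : S.U p ⊓ V ≤ V) t =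
        A p (S.U p ⊓ V) inf_le_left (res F inf_le_right x) := by
    intro V x
    refine glue G (fun p => S.U p ⊓ V) V (S.cover V) (fun p => inf_le_right) _ ?_
    intro p q
    rw [← hA2 p (S.U p ⊓ V) _ inf_le_left inf_le_left,
      ← hA2 q (S.U q ⊓ V) _ inf_le_right inf_le_left, res_res, res_res]
    exact hcomp2 p q _ _ _ _
  choose τ hτ1 hτ2 using key
  have hext : ∀ (V : X.Opens) (s t : Γ(G, V)), (∀ p, res G (inf_le_right : S.U p ⊓ V ≤ V) s =
      res G (inf_le_right : S.U p ⊓ V ≤ V) t) → s = t := fun V s t h =>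
    ext_cover G (fun p => S.U p ⊓ V) V (S.cover V) (fun p => inf_le_right) s t h
  refine ⟨homMk (fun V => AddMonoidHom.mk' (τ V) ?_) ?_ ?_, ?_⟩
  · intro x y
    refine hext V _ _ fun p => ?_
    rw [hτ1, map_add, map_add, map_add, hτ1, hτ1]
  · intro V a x
    refine hext V _ _ fun p => ?_
    show res G _ (τ V (a • x)) = res G _ (a • τ V x)
    rw [hτ1, res_smul, hA1, res_smul, hτ1]
  · intro V W h x
    refine hext W _ _ fun p => ?_
    show res G _ (τ W (res F h x)) = res G _ (res G h (τ V x))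
    rw [hτ1, res_res, res_res]
    have h1 : S.U p ⊓ W ≤ S.U p ⊓ V := inf_le_inf_left _ h
    rw [← res_res G (inf_le_right : S.U p ⊓ V ≤ V) h1, hτ1, ← hA2 p _ _ h1 inf_le_left, res_res]
  · intro p x
    show τ (S.U p) x = g p x
    refine hext _ _ _ fun q => ?_
    rw [hτ1, hcomp2 q p _ _ inf_le_right, hA2 p (S.U p) _ inf_le_right le_rfl, hA3]

/-- faithfulness -/
theorem hom_ext {F G : X.Modules} [F.IsQuasicoherent] (φ ψ : F ⟶ G)
    (h : ∀ p (x : Γ(F, S.U p)), φ.app (S.U p) x = ψ.app (S.U p) x) : φ = ψ := by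
  have hF : ∀ p, LocOn F (S.U p) := fun p => locOn_of_isQuasicoherent F _ (S.aff p)
  ext V x
  refine ext_cover G (fun p => S.U p ⊓ V) V (S.cover V) (fun p => inf_le_right) _ _ fun p => ?_
  rw [res_app, res_app]
  exact S.agree hF le_rfl (fun V _ => (φ.app V).hom) (fun V _ => (ψ.app V).hom)
    (fun V _ a x => Scheme.Modules.Hom.app_smul φ a x)
    (fun V _ a x => Scheme.Modules.Hom.app_smul ψ a x)
    (fun V W h _ x => (res_app φ h x).symm) (fun V W h _ x => (res_app ψ h x).symm)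
    (fun y => h p _) _ inf_le_left _

end AffSys

end MP55c1e7.B0
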