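import Pool.Agent.Lib.MP_55c1e7_ag.B0.P1

open AlgebraicGeometry CategoryTheory Limits TopologicalSpace Opposite

universe u

namespace MP55c1e7.B0

variable {X : Scheme.{u}}

/-- sections over `V` as a functor to types -/
noncomputable def secT (V : X.Opens) : X.Modules ⥤ Type u :=
  Scheme.Modules.toPresheaf X ⋙ ((evaluation _ _).obj (op V) ⋙ forget AddCommGrpCat)

noncomputable instance (V : X.Opens) : PreservesLimits (secT V) := by
  unfold secT
  have h1 : PreservesLimits (Scheme.Modules.toPresheaf X) := inferInstance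
  have h2 : PreservesLimits ((evaluation (Opens X)ᵒᵖ Ab.{u}).obj (op V)) := inferInstance
  have h3 : PreservesLimits (forget AddCommGrpCat.{u}) := inferInstance
  have h4 : PreservesLimits (((evaluation (Opens X)ᵒᵖ Ab.{u}).obj (op V)) ⋙
    forget AddCommGrpCat.{u}) := comp_preservesLimits _ _
  exact comp_preservesLimits _ _

/-- sections of a limit -/
theorem limit_sections {J : Type u} [SmallCategory J] (D : J ⥤ X.Modules) (V : X.Opens) :
    (∀ (x y : Γ(limit D, V)), (∀ j, (limit.π D j).app V x = (limit.π D j).app V y) → x = y) ∧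
    ∀ s : ∀ j, Γ(D.obj j, V), (∀ (i j : J) (f : i ⟶ j), (D.map f).app V (s i) = s j) →
      ∃ x : Γ(limit D, V), ∀ j, (limit.π D j).app V x = s j := by
  have hl := isLimitOfPreserves (secT V) (limit.isLimit D)
  constructor
  · intro x y h
    let x' : ((secT V).mapCone (limit.cone D)).pt := x
    let y' : ((secT V).mapCone (limit.cone D)).pt := y
    have h1 : Types.isLimitEquivSections hl x' = Types.isLimitEquivSections hl y' := by
      apply Subtype.ext
      funext j
      rw [Types.isLimitEquivSections_apply, Types.isLimitEquivSections_apply]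
      exact h j
    exact (Types.isLimitEquivSections hl).injective h1
  · intro s hs
    refine ⟨(Types.isLimitEquivSections hl).symm ⟨s, fun {i j} f => hs i j f⟩, fun j => ?_⟩
    have := Types.isLimitEquivSections_apply hl j
      ((Types.isLimitEquivSections hl).symm ⟨s, fun {i j} f => hs i j f⟩)
    rw [Equiv.apply_symm_apply] at this
    exact this.symm

namespace AffSys

variable {P : Type u} [SemilatticeInf P] (S : AffSys X P)

lemma bij_res_of_eq {G : X.Modules} {p : P}
    (hloc : ∀ V, Function.Bijective (res G (inf_le_left : V ⊓ S.U p ≤ V)))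
    (V W : X.Opens) (h : W ≤ V) (e : W = V ⊓ S.U p) : Function.Bijective (res G h) := by
  subst e
  exact hloc V

/-- gluing of sheaves of modules, each of which is extended from the open set `U p` -/
theorem gl (G : P → X.Modules) (t : ∀ p q, p ≤ q → (G q ⟶ G p)) (tid : ∀ p, t p p le_rfl = 𝟙 _)
    (tcomp : ∀ p q r (h : p ≤ q) (h' : q ≤ r), t q r h' ≫ t p q h = t p r (h.trans h'))
    (hloc : ∀ p V, Function.Bijective (res (G p) (inf_le_left : V ⊓ S.U p ≤ V)))
    (hiso : ∀ p q (h : p ≤ q) V, V ≤ S.U p → Function.Bijective ((t p q h).app V)) :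
    ∃ (F : X.Modules) (π : ∀ p, F ⟶ G p), (∀ p q (h : p ≤ q), π q ≫ t p q h = π p) ∧
      ∀ p V, V ≤ S.U p → Function.Bijective ((π p).app V) := by
  let D : Pᵒᵖ ⥤ X.Modules :=
    { obj := fun p => G p.unop
      map := fun {p q} f => t q.unop p.unop f.unop.le
      map_id := fun p => tid p.unop
      map_comp := fun {p q r} f g => (tcomp r.unop q.unop p.unop g.unop.le f.unop.le).symm }
  have tt : ∀ p q r (h : p ≤ q) (h' : q ≤ r) V (x : Γ(G r, V)),
      (t p q h).app V ((t q r h').app V x) = (t p r (h.trans h')).app V x := by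
    intro p q r h h' V x
    rw [← tcomp p q r h h']
    rfl
  -- the comparison `G q → G (p ⊓ q)` is bijective on opens in `U p`
  have key : ∀ p q V, V ≤ S.U p →
      Function.Bijective ((t (p ⊓ q) q inf_le_right).app V) := by
    intro p q V hV
    have h1 : V ⊓ S.U q ≤ S.U (p ⊓ q) := by
      rw [S.inf]; exact inf_le_inf_right _ hV
    have h2 := hiso (p ⊓ q) q inf_le_right (V ⊓ S.U q) h1
    have h3 := hloc q V
    have h4 := S.bij_res_of_eq (hloc (p ⊓ q)) V (V ⊓ S.U q) inf_le_left (by
      rw [S.inf, ← inf_assoc, inf_eq_left.2 hV])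
    have h5 : ⇑(res (G (p ⊓ q)) (inf_le_left : V ⊓ S.U q ≤ V)) ∘
        ((t (p ⊓ q) q inf_le_right).app V) = ((t (p ⊓ q) q inf_le_right).app (V ⊓ S.U q)) ∘
        res (G q) inf_le_left := by
      funext x
      exact res_app _ _ _
    have h6 : Function.Bijective (⇑(res (G (p ⊓ q)) (inf_le_left : V ⊓ S.U q ≤ V)) ∘
        ((t (p ⊓ q) q inf_le_right).app V)) := by
      rw [h5]; exact h2.comp h3
    exact (Function.Bijective.of_comp_iff' h4 _).1 h6
  have hπ : ∀ p q (h : p ≤ q), limit.π D (op q) ≫ t p q h = limit.π D (op p) := by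
    intro p q h
    exact limit.w D (homOfLE h).op
  have hπ' : ∀ p q (h : p ≤ q) (V : X.Opens) (x : Γ((limit D : X.Modules), V)),
      (t p q h).app V ((limit.π D (op q)).app V x) = (limit.π D (op p)).app V x := by
    intro p q h V x
    rw [← hπ p q h]
    rfl
  refine ⟨limit D, fun p => limit.π D (op p), hπ, ?_⟩
  intro p V hV
  obtain ⟨hinj, hsurj⟩ := limit_sections D V
  constructor
  · intro x y hxy
    apply hinj
    intro q
    apply (key p q.unop V hV).1
    have h1 := hπ' (p ⊓ q.unop) q.unop inf_le_right V x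
    have h2 := hπ' (p ⊓ q.unop) q.unop inf_le_right V y
    have h3 := hπ' (p ⊓ q.unop) p inf_le_left V x
    have h4 := hπ' (p ⊓ q.unop) p inf_le_left V y
    have hxy' : (limit.π D (op p)).app V x = (limit.π D (op p)).app V y := hxy
    exact (h1.trans h3.symm).trans ((congrArg _ hxy').trans (h4.trans h2.symm))
  · intro s
    choose σ hσ using fun q => (key p q V hV).2 ((t (p ⊓ q) p inf_le_left).app V s)
    obtain ⟨x, hx⟩ := hsurj (fun q => σ q.unop) (by
      intro q q' f
      have hle : q'.unop ≤ q.unop := f.unop.le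
      apply (key p q'.unop V hV).1
      rw [hσ]
      show (t (p ⊓ q'.unop) q'.unop inf_le_right).app V ((t q'.unop q.unop hle).app V
        (σ q.unop)) = _
      rw [tt, ← tt (p ⊓ q'.unop) (p ⊓ q.unop) q.unop (inf_le_inf_left _ hle) inf_le_right, hσ,
        tt])
    refine ⟨x, ?_⟩
    apply (key p p V hV).1
    have h1 := hx (op p)
    have h2 : (t (p ⊓ p) p inf_le_right).app V ((limit.π D (op p)).app V x) =
        (t (p ⊓ p) p inf_le_right).app V (σ p) := congrArg _ h1
    exact h2.trans (hσ p)

end AffSys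

end MP55c1e7.B0
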