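import Pool.Agent.Lib.MP_55c1e7_ag.B0.P2
import Pool.Agent.Lib.MP_55c1e7_ag.B0.B

open AlgebraicGeometry CategoryTheory Limits TopologicalSpace Opposite

universe u

namespace MP55c1e7.B0

variable {X : Scheme.{u}}

/-- The sheaf on `X` extended from the affine open `U` and associated with a module. -/
structure Ext (X : Scheme.{u}) (U : X.Opens) (hU : IsAffineOpen U) (N : Type u) [AddCommGroup N]
    [Module Γ(X, U) N] where
  G : X.Modules
  e : N ≃+ Γ(G, U)
  lin : ∀ (a : Γ(X, U)) (n : N), e (a • n) = a • e n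
  loc : ∀ V, Function.Bijective (res G (inf_le_left : V ⊓ U ≤ V))
  iso : IsIso (G.restrict hU.fromSpec).fromTildeΓ
  locOn : ∀ W, IsAffineOpen W → W ≤ U → LocOn G W

lemma image_preimage_le' {U : X.Opens} (hU : IsAffineOpen U) (W : X.Opens) :
    hU.fromSpec ''ᵁ (hU.fromSpec ⁻¹ᵁ W) ≤ W := hU.fromSpec.image_preimage_le W

/-- sections of the restriction over a preimage -/
noncomputable def dn' (M : X.Modules) {U : X.Opens} (hU : IsAffineOpen U) (W : X.Opens)
    (hWU : W ≤ U) : Γ(M.restrict hU.fromSpec, hU.fromSpec ⁻¹ᵁ W) →+ Γ(M, W) :=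
  (res M (by
    rw [Scheme.Hom.image_preimage_eq_opensRange_inf, hU.opensRange_fromSpec]
    exact le_inf hWU le_rfl)).comp (AddMonoidHom.id _ : Γ(M.restrict hU.fromSpec,
      hU.fromSpec ⁻¹ᵁ W) →+ Γ(M, hU.fromSpec ''ᵁ (hU.fromSpec ⁻¹ᵁ W)))

lemma dn'_bij (M : X.Modules) {U : X.Opens} (hU : IsAffineOpen U) (W : X.Opens)
    (hWU : W ≤ U) : Function.Bijective (dn' M hU W hWU) := by
  have e2 : hU.fromSpec ''ᵁ (hU.fromSpec ⁻¹ᵁ W) = W := by
    rw [Scheme.Hom.image_preimage_eq_opensRange_inf, hU.opensRange_fromSpec]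
    exact inf_eq_right.2 hWU
  constructor
  · intro x y hxy
    have h1 : res M e2.ge (show Γ(M, hU.fromSpec ''ᵁ (hU.fromSpec ⁻¹ᵁ W)) from x) =
      res M e2.ge (show Γ(M, hU.fromSpec ''ᵁ (hU.fromSpec ⁻¹ᵁ W)) from y) := hxy
    have h2 := congrArg (res M e2.le) h1
    rw [res_res, res_res, res_self, res_self] at h2
    exact h2
  · intro y
    refine ⟨(show Γ(M.restrict hU.fromSpec, hU.fromSpec ⁻¹ᵁ W) from res M e2.le y), ?_⟩
    show res M e2.ge (res M e2.le y) = y
    rw [res_res, res_self]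

lemma dn'_smul (M : X.Modules) {U : X.Opens} (hU : IsAffineOpen U) (W : X.Opens)
    (hWU : W ≤ U) (c : Γ(X, W)) (x : Γ(M.restrict hU.fromSpec, hU.fromSpec ⁻¹ᵁ W)) :
    dn' M hU W hWU (hU.fromSpec.app W c • x) = c • dn' M hU W hWU x := by
  have h1 := hU.fromSpec.app_appIso_inv W
  have h2 : (hU.fromSpec.appIso (hU.fromSpec ⁻¹ᵁ W)).inv (hU.fromSpec.app W c) =
      rs (image_preimage_le' hU W) c := congr($(h1).hom c)
  have h3 : (show Γ(M, hU.fromSpec ''ᵁ (hU.fromSpec ⁻¹ᵁ W)) from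
      (hU.fromSpec.app W c • x : Γ(M.restrict hU.fromSpec, hU.fromSpec ⁻¹ᵁ W))) =
      rs (image_preimage_le' hU W) c •
        (show Γ(M, hU.fromSpec ''ᵁ (hU.fromSpec ⁻¹ᵁ W)) from x) := by
    rw [← h2]
    rfl
  show res M _ (show Γ(M, hU.fromSpec ''ᵁ (hU.fromSpec ⁻¹ᵁ W)) from
      (hU.fromSpec.app W c • x : Γ(M.restrict hU.fromSpec, hU.fromSpec ⁻¹ᵁ W))) = _
  rw [h3, res_smul, rs_rs, rs_self]
  rfl

lemma dn'_res (M : X.Modules) {U : X.Opens} (hU : IsAffineOpen U) (W W' : X.Opens)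
    (hWU : W ≤ U) (h : W' ≤ W) (h' : hU.fromSpec ⁻¹ᵁ W' ≤ hU.fromSpec ⁻¹ᵁ W)
    (x : Γ(M.restrict hU.fromSpec, hU.fromSpec ⁻¹ᵁ W)) :
    dn' M hU W' (h.trans hWU) (res (M.restrict hU.fromSpec) h' x) = res M h (dn' M hU W hWU x) := by
  show res M _ (res M (hU.fromSpec.image_mono h') (show Γ(M, hU.fromSpec ''ᵁ
    (hU.fromSpec ⁻¹ᵁ W)) from x)) = res M h (res M _ (show Γ(M, hU.fromSpec ''ᵁ
    (hU.fromSpec ⁻¹ᵁ W)) from x))
  rw [res_res, res_res]

/-- quasi-coherence is local enough for this -/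
lemma locOn_of_iso_restrict (G : X.Modules) {U : X.Opens} (hU : IsAffineOpen U)
    (h : IsIso (G.restrict hU.fromSpec).fromTildeΓ) (W : X.Opens) (hW : IsAffineOpen W)
    (hWU : W ≤ U) : LocOn G W := by
  have h1 : (G.restrict hU.fromSpec).IsQuasicoherent :=
    (isQuasicoherent_iff_isIso_fromTildeΓ _).2 h
  have hW' : IsAffineOpen (hU.fromSpec ⁻¹ᵁ W) := by
    apply hW.preimage_of_isOpenImmersion
    rw [hU.opensRange_fromSpec]
    exact hWU
  have h2 := locOn_of_isQuasicoherent (G.restrict hU.fromSpec) _ hW'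
  have e3 : ∀ r : Γ(X, W), (Spec Γ(X, U)).basicOpen (hU.fromSpec.app W r) =
      hU.fromSpec ⁻¹ᵁ (X.basicOpen r) := fun r => (Scheme.preimage_basicOpen _ _).symm
  constructor
  · intro r s
    have hr : X.basicOpen r ≤ U := (X.basicOpen_le r).trans hWU
    obtain ⟨s', hs'⟩ := (dn'_bij G hU _ hr).2 s
    obtain ⟨n, t, ht⟩ := h2.ex (hU.fromSpec.app W r) (res _ (e3 r).le s')
    refine ⟨n, dn' G hU W hWU t, ?_⟩
    have h3 := congrArg (res (G.restrict hU.fromSpec) (e3 r).ge) ht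
    rw [res_res, res_smul, res_res, res_self, map_pow, rs_rs] at h3
    have h4 := congrArg (dn' G hU _ hr) h3
    rw [dn'_res G hU W _ hWU (X.basicOpen_le r)] at h4
    rw [h4, ← hs', ← map_pow, ← map_pow, ← map_pow]
    have h5 : rs ((e3 r).ge.trans ((Spec Γ(X, U)).basicOpen_le _)) (hU.fromSpec.app W (r ^ n)) =
      hU.fromSpec.app (X.basicOpen r) (rs (X.basicOpen_le r) (r ^ n)) := by
      have := hU.fromSpec.naturality (homOfLE (X.basicOpen_le r)).op
      exact congr($(this).hom (r ^ n)).symm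
    rw [h5, dn'_smul]
  · intro r t ht
    obtain ⟨t', ht'⟩ := (dn'_bij G hU _ hWU).2 t
    have h3 := h2.un (hU.fromSpec.app W r) t' (by
      have h4 : res (G.restrict hU.fromSpec) ((hU.fromSpec.preimage_mono (X.basicOpen_le r))) t'
          = 0 := by
        apply (dn'_bij G hU _ ((X.basicOpen_le r).trans hWU)).1
        rw [dn'_res G hU W _ hWU (X.basicOpen_le r), ht', ht, map_zero]
      have h5 := congrArg (res (G.restrict hU.fromSpec) (e3 r).le) h4
      rwa [res_res, map_zero] at h5)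
    obtain ⟨n, hn⟩ := h3
    refine ⟨n, ?_⟩
    have h4 := congrArg (dn' G hU _ hWU) hn
    rw [← map_pow, dn'_smul, ht', map_zero] at h4
    exact h4

set_option backward.isDefEq.respectTransparency false in
lemma iso_push {U : X.Opens} (hU : IsAffineOpen U) (T : (Spec Γ(X, U)).Modules)
    (hT : T.IsQuasicoherent) :
    IsIso (((Scheme.Modules.pushforward hU.fromSpec).obj T).restrict hU.fromSpec).fromTildeΓ := by
  rw [← isQuasicoherent_iff_isIso_fromTildeΓ]
  exact (SheafOfModules.isQuasicoherent.{u} _).prop_of_iso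
      ((Scheme.Modules.restrictFunctorAdjCounitIso hU.fromSpec).app T).symm hT


/-- restriction of a module to an equal open set -/
lemma bij_res_eq {Y : Scheme.{u}} (T : Y.Modules) {V W : Y.Opens} (h : W ≤ V) (e : W = V) :
    Function.Bijective (res T h) := by
  subst e
  constructor
  · intro x y hxy
    rwa [res_self, res_self] at hxy
  · intro x
    exact ⟨x, res_self _ _ _⟩

lemma res_push {U : X.Opens} (hU : IsAffineOpen U) (T : (Spec Γ(X, U)).Modules) {V W : X.Opens}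
    (h : W ≤ V) (x : Γ((Scheme.Modules.pushforward hU.fromSpec).obj T, V)) :
    res ((Scheme.Modules.pushforward hU.fromSpec).obj T) h x =
      res T (hU.fromSpec.preimage_mono h) (show Γ(T, hU.fromSpec ⁻¹ᵁ V) from x) := rfl

lemma smul_push {U : X.Opens} (hU : IsAffineOpen U) (T : (Spec Γ(X, U)).Modules) {V : X.Opens}
    (a : Γ(X, V)) (x : Γ((Scheme.Modules.pushforward hU.fromSpec).obj T, V)) :
    (show Γ(T, hU.fromSpec ⁻¹ᵁ V) from
      (a • x : Γ((Scheme.Modules.pushforward hU.fromSpec).obj T, V))) =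
      hU.fromSpec.app V a • (show Γ(T, hU.fromSpec ⁻¹ᵁ V) from x) := rfl

lemma smul_tilde {R : CommRingCat.{u}} (N : ModuleCat.{u} R) (V : (Spec R).Opens) (a : R)
    (x : Γ(tilde N, V)) :
    (a • x : Γ(tilde N, V)) = rs (le_top : V ≤ ⊤) ((Scheme.ΓSpecIso R).inv a) • x := rfl

theorem exists_ext (U : X.Opens) (hU : IsAffineOpen U) (N : Type u) [AddCommGroup N]
    [Module Γ(X, U) N] : Nonempty (Ext X U hU N) := by
  let T : (Spec Γ(X, U)).Modules := tilde (ModuleCat.of Γ(X, U) N)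
  let G : X.Modules := (Scheme.Modules.pushforward hU.fromSpec).obj T
  have e1 : hU.fromSpec ⁻¹ᵁ U = ⊤ := hU.fromSpec_preimage_self
  have hT : T.IsQuasicoherent := inferInstance
  have hiso : IsIso (G.restrict hU.fromSpec).fromTildeΓ := iso_push hU T hT
  have hloc : ∀ V, Function.Bijective (res G (inf_le_left : V ⊓ U ≤ V)) := by
    intro V
    refine bij_res_eq T (hU.fromSpec.preimage_mono inf_le_left) ?_
    rw [Scheme.Hom.preimage_inf, e1, inf_top_eq]
  let e0 : N →+ Γ(T, ⊤) := (tilde.toOpen (ModuleCat.of Γ(X, U) N) ⊤).hom.toAddMonoidHom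
  have he0 : Function.Bijective e0 :=
    ConcreteCategory.bijective_of_isIso (tilde.toOpen (ModuleCat.of Γ(X, U) N) ⊤)
  have e0lin : ∀ (a : Γ(X, U)) (n : N), e0 (a • n) = (Scheme.ΓSpecIso Γ(X, U)).inv a • e0 n := by
    intro a n
    have := (tilde.toOpen (ModuleCat.of Γ(X, U) N) ⊤).hom.map_smul a n
    refine this.trans ?_
    refine (smul_tilde (ModuleCat.of Γ(X, U) N) ⊤ a _).trans ?_
    rw [rs_self]
    rfl
  let e : N →+ Γ(G, U) := (res T (e1.le : hU.fromSpec ⁻¹ᵁ U ≤ ⊤)).comp e0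
  have he : Function.Bijective e := (bij_res_eq T e1.le e1).comp he0
  refine ⟨⟨G, AddEquiv.ofBijective e he, ?_, hloc, hiso,
    fun W hW hWU => locOn_of_iso_restrict G hU hiso W hW hWU⟩⟩
  intro a n
  show res T _ (e0 (a • n)) = _
  rw [e0lin, res_smul]
  show _ = hU.fromSpec.app U a • (show Γ(T, hU.fromSpec ⁻¹ᵁ U) from e n)
  congr 1
  have := hU.fromSpec_app_self
  rw [this]
  rfl

end MP55c1e7.B0
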