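import Pool.Agent.Lib.MP_55c1e7_ag.B0.P3

open AlgebraicGeometry CategoryTheory Limits TopologicalSpace Opposite

universe u

namespace MP55c1e7.B0

variable {X : Scheme.{u}}

lemma locOn_of_bij {F G : X.Modules} (φ : F ⟶ G) {U : X.Opens}
    (hφ : ∀ V, V ≤ U → Function.Bijective (φ.app V)) (hG : LocOn G U) : LocOn F U := by
  constructor
  · intro r s
    obtain ⟨n, t, ht⟩ := hG.ex r (φ.app _ s)
    obtain ⟨t', ht'⟩ := (hφ U le_rfl).2 t
    refine ⟨n, t', (hφ _ (X.basicOpen_le r)).1 ?_⟩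
    rw [← res_app, ht', ht, Scheme.Modules.Hom.app_smul]
  · intro r t ht
    obtain ⟨n, hn⟩ := hG.un r (φ.app _ t) (by rw [res_app, ht, map_zero])
    refine ⟨n, (hφ U le_rfl).1 ?_⟩
    rw [Scheme.Modules.Hom.app_smul, hn, map_zero]

lemma local_of_le {K : X.Modules} {U U' : X.Opens} (hU : U ≤ U')
    (hK : ∀ V, Function.Bijective (res K (inf_le_left : V ⊓ U ≤ V))) (V : X.Opens) :
    Function.Bijective (res K (inf_le_left : V ⊓ U' ≤ V)) := by
  have e : V ⊓ U' ⊓ U = V ⊓ U := by rw [inf_assoc, inf_eq_right.2 hU]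
  have h1 := hK (V ⊓ U')
  have h2 := (bij_res_eq K e.ge e.symm).comp (h1)
  refine (Function.Bijective.of_comp_iff' h2 _).1 ?_
  have h3 : (⇑(res K e.ge) ∘ ⇑(res K (inf_le_left : V ⊓ U' ⊓ U ≤ V ⊓ U'))) ∘
    ⇑(res K (inf_le_left : V ⊓ U' ≤ V)) = res K (inf_le_left : V ⊓ U ≤ V) := by
    funext x
    simp only [Function.comp_apply, res_res]
  rw [h3]
  exact hK V

/-- uniqueness of morphisms into a local module -/
lemma hom_ext_local {F K : X.Modules} {U : X.Opens} (hU : IsAffineOpen U) (hF : LocOn F U)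
    (hK : ∀ V, Function.Bijective (res K (inf_le_left : V ⊓ U ≤ V))) (φ ψ : F ⟶ K)
    (h : ∀ x, φ.app U x = ψ.app U x) : φ = ψ := by
  ext V x
  apply (hK V).1
  rw [res_app, res_app]
  have h2 := zero_of_le (M := F) (N := K) hU (fun V _ => (φ.app V).hom - (ψ.app V).hom)
    (fun V hV a x => by
      rw [AddMonoidHom.sub_apply, AddMonoidHom.sub_apply]
      refine (congrArg₂ _ (Scheme.Modules.Hom.app_smul φ a x)
        (Scheme.Modules.Hom.app_smul ψ a x)).trans ?_
      rw [smul_sub])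
    (fun V W h hV x => by
      rw [AddMonoidHom.sub_apply, AddMonoidHom.sub_apply, map_sub]
      exact (congrArg₂ _ (res_app φ h x) (res_app ψ h x)).symm) hF
    (fun x => by
      rw [AddMonoidHom.sub_apply]
      exact sub_eq_zero.2 (h x)) (V ⊓ U) inf_le_right (res F inf_le_left x)
  exact sub_eq_zero.1 h2

variable {P : Type u} [SemilatticeInf P] (S : AffSys X P)

/-- compatible modules over the rings of an affine system -/
structure ModSys (M : P → Type u) [∀ p, AddCommGroup (M p)] [∀ p, Module Γ(X, S.U p) (M p)] where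
  ρ : ∀ p q, p ≤ q → M q →+ M p
  ρ_self : ∀ p (x : M p), ρ p p le_rfl x = x
  ρ_ρ : ∀ p q r (h : p ≤ q) (h' : q ≤ r) (x : M r), ρ p q h (ρ q r h' x) = ρ p r (h.trans h') x
  ρ_smul : ∀ p q (h : p ≤ q) (a : Γ(X, S.U q)) (x : M q),
    ρ p q h (a • x) = rs (S.mono h) a • ρ p q h x
  loc : ∀ p q (h : p ≤ q), ∃ r : Γ(X, S.U q), X.basicOpen r = S.U p ∧
     (∀ m : M p, ∃ (n : ℕ) (t : M q), ρ p q h t = rs (S.mono h) r ^ n • m) ∧
     (∀ t : M q, ρ p q h t = 0 → ∃ n : ℕ, r ^ n • t = 0)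

namespace ModSys

variable {S} {M : P → Type u} [∀ p, AddCommGroup (M p)] [∀ p, Module Γ(X, S.U p) (M p)]
  (D : ModSys S M)

theorem exists_sheaf : ∃ (F : X.Modules), (∀ p, LocOn F (S.U p)) ∧
    ∃ (ε : ∀ p, Γ(F, S.U p) ≃+ M p),
      (∀ p (a : Γ(X, S.U p)) (x : Γ(F, S.U p)), ε p (a • x) = a • ε p x) ∧
      ∀ p q (h : p ≤ q) (x : Γ(F, S.U q)), ε p (res F (S.mono h) x) = D.ρ p q h (ε q x) := by
  obtain ⟨E⟩ : Nonempty (∀ p, Ext X (S.U p) (S.aff p) (M p)) :=
    ⟨fun p => (exists_ext (X := X) (S.U p) (S.aff p) (M p)).some⟩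
  have hbij : ∀ p q (h : p ≤ q), Function.Bijective (res (E p).G (S.mono h)) := by
    intro p q h
    exact S.bij_res_of_eq (E p).loc _ _ (S.mono h) (inf_eq_right.2 (S.mono h)).symm
  have hloc : ∀ p q (_ : p ≤ q) (V : X.Opens),
      Function.Bijective (res (E p).G (inf_le_left : V ⊓ S.U q ≤ V)) := fun p q h =>
    local_of_le (S.mono h) (E p).loc
  have hex : ∀ p q (h : p ≤ q), ∃ φ : (E q).G ⟶ (E p).G, ∀ x : Γ((E q).G, S.U q),
      res (E p).G (S.mono h) (φ.app (S.U q) x) = (E p).e (D.ρ p q h ((E q).e.symm x)) := by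
    intro p q h
    let b : Γ((E p).G, S.U q) ≃+ Γ((E p).G, S.U p) := AddEquiv.ofBijective _ (hbij p q h)
    have hb : ∀ x, res (E p).G (S.mono h) (b.symm x) = x := fun x => b.apply_symm_apply x
    let g : Γ((E q).G, S.U q) →+ Γ((E p).G, S.U q) := b.symm.toAddMonoidHom.comp
      ((E p).e.toAddMonoidHom.comp ((D.ρ p q h).comp (E q).e.symm.toAddMonoidHom))
    have hg : ∀ x, res (E p).G (S.mono h) (g x) = (E p).e (D.ρ p q h ((E q).e.symm x)) :=
      fun x => hb _
    have hsymm : ∀ (a : Γ(X, S.U q)) (x : Γ((E q).G, S.U q)),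
        (E q).e.symm (a • x) = a • (E q).e.symm x := by
      intro a x
      apply (E q).e.injective
      rw [(E q).lin, AddEquiv.apply_symm_apply, AddEquiv.apply_symm_apply]
    obtain ⟨φ, hφ⟩ := exists_hom_local (E q).G (E p).G (S.aff q) (E q).iso (hloc p q h) g (by
      intro a x
      apply (hbij p q h).1
      rw [hg, hsymm, D.ρ_smul, (E p).lin, res_smul, hg])
    exact ⟨φ, fun x => by rw [hφ, hg]⟩
  choose t ht using hex
  have hLoc : ∀ p, LocOn (E p).G (S.U p) := fun p => (E p).locOn _ (S.aff p) le_rfl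
  -- the effect on sections over the smaller open
  have ht2 : ∀ p q (h : p ≤ q) (x : Γ((E q).G, S.U q)),
      (t p q h).app (S.U p) (res (E q).G (S.mono h) x) =
        (E p).e (D.ρ p q h ((E q).e.symm x)) := by
    intro p q h x
    rw [← res_app, ht]
  have tid : ∀ p, t p p le_rfl = 𝟙 _ := by
    intro p
    refine hom_ext_local (S.aff p) (hLoc p) (E p).loc _ _ fun x => ?_
    have h1 := ht p p le_rfl x
    rw [res_self, D.ρ_self, AddEquiv.apply_symm_apply] at h1
    exact h1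
  have tcomp : ∀ p q r (h : p ≤ q) (h' : q ≤ r), t q r h' ≫ t p q h = t p r (h.trans h') := by
    intro p q r h h'
    refine hom_ext_local (S.aff r) (hLoc r) (hloc p r (h.trans h')) _ _ fun x => ?_
    apply (hbij p r (h.trans h')).1
    show res (E p).G _ ((t p q h).app (S.U r) ((t q r h').app (S.U r) x)) = _
    rw [ht, ← D.ρ_ρ p q r h h', ← res_res _ (S.mono h') (S.mono h), res_app, ht, ht,
      AddEquiv.symm_apply_apply]
  have hiso : ∀ p q (h : p ≤ q) V, V ≤ S.U p → Function.Bijective ((t p q h).app V) := by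
    intro p q h
    refine fun V hV => bij_of_le (t p q h) (S.aff p) ((E q).locOn _ (S.aff p) (S.mono h))
      (hLoc p) ?_ V hV
    obtain ⟨r, hr, hex, hun⟩ := D.loc p q h
    have hu : IsUnit (rs (S.mono h) r) := by
      have h4 := (isUnit_rs_basicOpen r).map (rs hr.ge)
      rwa [rs_rs] at h4
    constructor
    · rw [injective_iff_map_eq_zero]
      intro x hx
      obtain ⟨n, y, hy⟩ := (hLoc q).ex r (res _ hr.le x)
      have hy2 : res (E q).G (S.mono h) y = rs (S.mono h) r ^ n • x := by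
        have h2 := congrArg (res (E q).G hr.ge) hy
        rwa [res_smul, res_res, res_res, map_pow, rs_rs, res_self] at h2
      have h3 := ht2 p q h y
      rw [hy2, Scheme.Modules.Hom.app_smul, hx, smul_zero] at h3
      have h4 := (E p).e.map_eq_zero_iff.1 h3.symm
      obtain ⟨m, hm⟩ := hun _ h4
      have h5 : r ^ m • y = 0 := by
        have := congrArg (E q).e hm
        rwa [(E q).lin, AddEquiv.apply_symm_apply, map_zero] at this
      have h6 := congrArg (res (E q).G (S.mono h)) h5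
      rw [res_smul, hy2, map_zero, map_pow, smul_smul, ← pow_add] at h6
      exact (hu.pow _).smul_eq_zero.1 h6
    · intro z
      obtain ⟨n, y, hy⟩ := hex ((E p).e.symm z)
      obtain ⟨v, hv⟩ := hu.pow n
      refine ⟨(↑v⁻¹ : Γ(X, S.U p)) • res (E q).G (S.mono h) ((E q).e y), ?_⟩
      rw [Scheme.Modules.Hom.app_smul, ht2, AddEquiv.symm_apply_apply, hy, (E p).lin,
        AddEquiv.apply_symm_apply, ← hv, smul_smul, Units.inv_mul, one_smul]
  obtain ⟨F, π, hπ, hπ2⟩ := S.gl (fun p => (E p).G) t tid tcomp (fun p => (E p).loc) hiso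
  let ε : ∀ p, Γ(F, S.U p) ≃+ M p := fun p =>
    (AddEquiv.ofBijective ((π p).app (S.U p)).hom (hπ2 p _ le_rfl)).trans (E p).e.symm
  have hε : ∀ p x, ε p x = (E p).e.symm ((π p).app (S.U p) x) := fun p x => rfl
  refine ⟨F, fun p => locOn_of_bij (π p) (hπ2 p) (hLoc p), ε, ?_, ?_⟩
  · intro p a x
    apply (E p).e.injective
    rw [(E p).lin, hε, hε, AddEquiv.apply_symm_apply, AddEquiv.apply_symm_apply,
      Scheme.Modules.Hom.app_smul]
  · intro p q h x
    apply (E p).e.injective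
    rw [hε, hε, AddEquiv.apply_symm_apply, ← ht, ← res_app, ← hπ p q h]
    rfl

end ModSys

end MP55c1e7.B0
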