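import Pool.Agent.Lib.MP_55c1e7_ag.B0.P4

open AlgebraicGeometry CategoryTheory Limits TopologicalSpace Opposite

universe u

namespace MP55c1e7.B0

variable {X : Scheme.{u}}

/-- functions on a basic open -/
lemma exists_num {U : X.Opens} (hU : IsAffineOpen U) (r : Γ(X, U)) (a : Γ(X, X.basicOpen r)) :
    ∃ (n : ℕ) (b : Γ(X, U)), rs (X.basicOpen_le r) b = rs (X.basicOpen_le r) r ^ n * a := by
  have := hU.isLocalization_basicOpen r
  obtain ⟨⟨b, ⟨_, n, rfl⟩⟩, hb⟩ := IsLocalization.surj (Submonoid.powers r) a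
  refine ⟨n, b, ?_⟩
  have hb' : a * rs (X.basicOpen_le r) (r ^ n) = rs (X.basicOpen_le r) b := hb
  rw [← hb', map_pow, mul_comm]

lemma finite_basicOpen {F : X.Modules} {U : X.Opens} (hF : LocOn F U)
    (h : Module.Finite Γ(X, U) Γ(F, U)) (r : Γ(X, U)) :
    Module.Finite Γ(X, X.basicOpen r) Γ(F, X.basicOpen r) := by
  obtain ⟨s, hs⟩ := h.fg_top
  classical
  refine ⟨⟨s.image (res F (X.basicOpen_le r)), ?_⟩⟩
  rw [eq_top_iff]
  intro x _
  have key : ∀ t : Γ(F, U), res F (X.basicOpen_le r) t ∈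
      Submodule.span Γ(X, X.basicOpen r) ((s.image (res F (X.basicOpen_le r)) :
        Finset Γ(F, X.basicOpen r)) : Set Γ(F, X.basicOpen r)) := by
    intro t
    have ht : t ∈ Submodule.span Γ(X, U) (s : Set Γ(F, U)) := by rw [hs]; trivial
    induction ht using Submodule.span_induction with
    | mem y hy =>
      apply Submodule.subset_span
      rw [Finset.coe_image]
      exact ⟨y, hy, rfl⟩
    | zero => rw [map_zero]; exact zero_mem _
    | add y z _ _ hy hz => rw [map_add]; exact add_mem hy hz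
    | smul a y _ hy => rw [res_smul]; exact Submodule.smul_mem _ _ hy
  obtain ⟨n, t, ht⟩ := hF.ex r x
  obtain ⟨v, hv⟩ := (isUnit_rs_basicOpen r).pow n
  have h1 := Submodule.smul_mem _ (↑v⁻¹ : Γ(X, X.basicOpen r)) (key t)
  rwa [ht, ← hv, smul_smul, Units.inv_mul, one_smul] at h1

lemma finite_glue {F : X.Modules} {U : X.Opens} (hU : IsAffineOpen U) (hF : LocOn F U)
    (s : Finset Γ(X, U)) (hs : Ideal.span (s : Set Γ(X, U)) = ⊤)
    (h : ∀ f : s, Module.Finite Γ(X, X.basicOpen f.1) Γ(F, X.basicOpen f.1)) :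
    Module.Finite Γ(X, U) Γ(F, U) := by
  classical
  -- generators coming from sections over `U`
  have h1 : ∀ f : s, ∃ T : Finset Γ(F, U), ∀ x : Γ(F, U), ∃ m : ℕ,
      f.1 ^ m • x ∈ Submodule.span Γ(X, U) (T : Set Γ(F, U)) := by
    intro f
    obtain ⟨G, hG⟩ := (h f).fg_top
    choose n t ht using hF.ex f.1
    refine ⟨G.image t, ?_⟩
    have key : ∀ y : Γ(F, X.basicOpen f.1), ∃ (m : ℕ) (z : Γ(F, U)),
        z ∈ Submodule.span Γ(X, U) ((G.image t : Finset Γ(F, U)) : Set Γ(F, U)) ∧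
        res F (X.basicOpen_le f.1) z = rs (X.basicOpen_le f.1) f.1 ^ m • y := by
      intro y
      have hy : y ∈ Submodule.span Γ(X, X.basicOpen f.1) (G : Set Γ(F, X.basicOpen f.1)) := by
        rw [hG]; trivial
      induction hy using Submodule.span_induction with
      | mem y hy =>
        refine ⟨n y, t y, Submodule.subset_span ?_, ht y⟩
        rw [Finset.coe_image]
        exact ⟨y, hy, rfl⟩
      | zero => exact ⟨0, 0, zero_mem _, by rw [map_zero, smul_zero]⟩
      | add y z _ _ hy hz =>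
        obtain ⟨m, a, ha, ha'⟩ := hy
        obtain ⟨m', b, hb, hb'⟩ := hz
        refine ⟨m + m', f.1 ^ m' • a + f.1 ^ m • b,
          add_mem (Submodule.smul_mem _ _ ha) (Submodule.smul_mem _ _ hb), ?_⟩
        rw [map_add, res_smul, res_smul, ha', hb', map_pow, map_pow, smul_smul, smul_smul,
          smul_add, ← pow_add, ← pow_add, add_comm m' m]
      | smul a y _ hy =>
        obtain ⟨m, b, hb, hb'⟩ := hy
        obtain ⟨l, c, hc⟩ := exists_num hU f.1 a
        refine ⟨l + m, c • b, Submodule.smul_mem _ _ hb, ?_⟩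
        rw [res_smul, hb', hc, smul_smul, smul_smul]
        congr 1
        ring
    intro x
    obtain ⟨m, z, hz, hz'⟩ := key (res F (X.basicOpen_le f.1) x)
    obtain ⟨l, hl⟩ := hF.un f.1 (f.1 ^ m • x - z) (by
      rw [map_sub, res_smul, hz', map_pow, sub_self])
    refine ⟨l + m, ?_⟩
    rw [smul_sub, sub_eq_zero, smul_smul, ← pow_add] at hl
    rw [hl]
    exact Submodule.smul_mem _ _ hz
  choose T hT using h1
  refine ⟨⟨Finset.univ.biUnion T, ?_⟩⟩
  rw [eq_top_iff]
  intro x _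
  refine Submodule.mem_of_span_eq_top_of_smul_pow_mem _ (s : Set Γ(X, U)) hs x ?_
  intro f
  obtain ⟨m, hm⟩ := hT f x
  refine ⟨m, Submodule.span_mono ?_ hm⟩
  rw [Finset.coe_subset]
  exact Finset.subset_biUnion_of_mem T (Finset.mem_univ f)

/-- finiteness is a local property -/
theorem finite_of_cover {F : X.Modules} (hF : ∀ U, IsAffineOpen U → LocOn F U) {ι : Type*}
    (U : ι → X.Opens) (hU : ∀ i, IsAffineOpen (U i)) (hc : ⨆ i, U i = ⊤)
    (h : ∀ i, Module.Finite Γ(X, U i) Γ(F, U i)) (V : X.Opens) (hV : IsAffineOpen V) :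
    Module.Finite Γ(X, V) Γ(F, V) := by
  refine of_affine_open_cover (P := fun V => Module.Finite Γ(X, V.1) Γ(F, V.1))
    (fun i => ⟨U i, hU i⟩) hc ⟨V, hV⟩ ?_ ?_ h
  · intro W f hW
    exact finite_basicOpen (hF W.1 W.2) hW f
  · intro W s hs h
    exact finite_glue W.2 (hF W.1 W.2) s hs h

end MP55c1e7.B0
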