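import Pool.Agent.Lib.MP_55c1e7_ag.Cech
import Pool.Agent.Lib.MP_55c1e7_ag.B0.P5

open AlgebraicGeometry CategoryTheory Limits TopologicalSpace Opposite

namespace BadRed

open MP55c1e7.B0

universe u

lemma eq_of_bijective {X : Scheme.{u}} {V W : X.Opens} (hV : IsAffineOpen V)
    (hW : IsAffineOpen W) (h : V ≤ W) (hb : Function.Bijective (rs h)) : V = W := by
  have h1 := hW.map_fromSpec hV (homOfLE h).op
  have h2 : IsIso (X.presheaf.map (homOfLE h).op) :=
    (ConcreteCategory.isIso_iff_bijective _).2 hb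
  apply Opens.ext
  rw [← hV.range_fromSpec, ← hW.range_fromSpec, ← h1]
  have h3 : IsIso (Spec.map (X.presheaf.map (homOfLE h).op)) := inferInstance
  have h4 : Set.range (Spec.map (X.presheaf.map (homOfLE h).op)) = Set.univ :=
    Set.range_eq_univ.2 (Spec.map (X.presheaf.map (homOfLE h).op)).homeomorph.surjective
  refine (Set.range_comp hW.fromSpec (Spec.map (X.presheaf.map (homOfLE h).op))).trans ?_
  exact (congrArg _ h4).trans Set.image_univ

variable {k K : Type} [Field k] [Field K] [Algebra k K] {Lam : Type}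

/-- Denominators -/
def CechDen (A : Lam → Subalgebra k K) : Prop :=
  ∀ S T : NF Lam, S ≤ T → ∀ x ∈ cechRing A T, ∃ h ∈ cechRing A S, h ≠ 0 ∧ h⁻¹ ∈ cechRing A T ∧
    h * x ∈ cechRing A S

/-- a common denominator -/
lemma exists_den {R R' : Subalgebra k K} (hfg : R'.FG)
    (hden : ∀ x ∈ R', ∃ h ∈ R, h ≠ 0 ∧ h⁻¹ ∈ R' ∧ h * x ∈ R) :
    ∃ h ∈ R, h ≠ 0 ∧ h⁻¹ ∈ R' ∧ ∀ x ∈ R', ∃ n : ℕ, h ^ n * x ∈ R := by
  classical
  obtain ⟨s, hs⟩ := hfg
  have hs' : ∀ x ∈ s, x ∈ R' := fun x hx => by rw [← hs]; exact Algebra.subset_adjoin hx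
  have key : ∀ t : Finset K, t ⊆ s → ∃ h ∈ R, h ≠ 0 ∧ h⁻¹ ∈ R' ∧ ∀ x ∈ t, h * x ∈ R := by
    intro t
    induction t using Finset.induction_on with
    | empty =>
      intro _
      exact ⟨1, R.one_mem, one_ne_zero, by rw [inv_one]; exact R'.one_mem, by simp⟩
    | insert a t ha ih =>
      intro ht
      obtain ⟨h, h1, h2, h3, h4⟩ := ih ((Finset.subset_insert a t).trans ht)
      obtain ⟨g, g1, g2, g3, g4⟩ := hden a (hs' a (ht (Finset.mem_insert_self a t)))
      refine ⟨h * g, R.mul_mem h1 g1, mul_ne_zero h2 g2, ?_, ?_⟩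
      · rw [mul_inv]; exact R'.mul_mem h3 g3
      · intro x hx
        rcases Finset.mem_insert.1 hx with rfl | hx
        · rw [mul_assoc]; exact R.mul_mem h1 g4
        · rw [mul_comm h, mul_assoc]; exact R.mul_mem g1 (h4 x hx)
  obtain ⟨h, h1, h2, h3, h4⟩ := key s subset_rfl
  refine ⟨h, h1, h2, h3, fun x hx => ?_⟩
  rw [← hs] at hx
  induction hx using Algebra.adjoin_induction with
  | mem x hx => exact ⟨1, by rw [pow_one]; exact h4 x hx⟩
  | algebraMap r => exact ⟨0, by rw [pow_zero, one_mul]; exact R.algebraMap_mem r⟩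
  | add x y _ _ hx hy =>
    obtain ⟨m, hm⟩ := hx
    obtain ⟨n, hn⟩ := hy
    refine ⟨m + n, ?_⟩
    have e : h ^ (m + n) * (x + y) = h ^ n * (h ^ m * x) + h ^ m * (h ^ n * y) := by ring
    rw [e]
    exact R.add_mem (R.mul_mem (R.pow_mem h1 _) hm) (R.mul_mem (R.pow_mem h1 _) hn)
  | mul x y _ _ hx hy =>
    obtain ⟨m, hm⟩ := hx
    obtain ⟨n, hn⟩ := hy
    refine ⟨m + n, ?_⟩
    have e : h ^ (m + n) * (x * y) = (h ^ m * x) * (h ^ n * y) := by ring
    rw [e]
    exact R.mul_mem hm hn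

namespace Charted

variable {X : Scheme.{0}} {f : X ⟶ Spec (CommRingCat.of k)} {A : Lam → Subalgebra k K}
  (C : Charted f A)

lemma phi_mem (S : NF Lam) (a : Γ(X, interV C.V S)) : C.phi S a ∈ cechRing A S := by
  have h : C.phi S a ∈ (C.phi S).range := ⟨a, rfl⟩
  rw [C.range] at h
  exact h

lemma exists_phi (S : NF Lam) {x : K} (hx : x ∈ cechRing A S) : ∃ a, C.phi S a = x := by
  have h : x ∈ (C.phi S).range := by rw [C.range]; exact hx
  exact h

/-- the function of an element of the ring -/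
noncomputable def fn (S : NF Lam) (x : K) (hx : x ∈ cechRing A S) : Γ(X, interV C.V S) :=
  (C.exists_phi S hx).choose

@[simp] lemma phi_fn (S : NF Lam) (x : K) (hx : x ∈ cechRing A S) : C.phi S (C.fn S x hx) = x :=
  (C.exists_phi S hx).choose_spec

lemma phi_rs {S T : NF Lam} (h : S ≤ T) (a : Γ(X, interV C.V S)) :
    C.phi T (rs (interV_anti C.V h) a) = C.phi S a := C.res S T h a

lemma eq_fn (S : NF Lam) (a : Γ(X, interV C.V S)) (x : K) (hx : x ∈ cechRing A S)
    (h : C.phi S a = x) : a = C.fn S x hx := by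
  apply C.inj
  rw [h, phi_fn]

lemma basicOpen_eq {S T : NF Lam} (hST : S ≤ T) (r : Γ(X, interV C.V S)) (h0 : C.phi S r ≠ 0)
    (h1 : (C.phi S r)⁻¹ ∈ cechRing A T)
    (h2 : ∀ x ∈ cechRing A T, ∃ n : ℕ, C.phi S r ^ n * x ∈ cechRing A S) :
    X.basicOpen r = interV C.V T := by
  have hle := interV_anti C.V hST
  have hu : IsUnit (rs hle r) := by
    refine IsUnit.of_mul_eq_one (C.fn T _ h1) ?_
    apply C.inj
    rw [map_mul, phi_fn, C.phi_rs hST, map_one, mul_inv_cancel₀ h0]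
  have hle2 : interV C.V T ≤ X.basicOpen r := by
    have h3 := basicOpen_rs hle r
    have h4 : X.basicOpen (rs hle r) = interV C.V T := X.basicOpen_of_isUnit hu
    rw [h4] at h3
    exact inf_eq_left.1 h3.symm
  symm
  refine eq_of_bijective (C.affine T) ((C.affine S).basicOpen r) hle2 ⟨?_, ?_⟩
  · rw [injective_iff_map_eq_zero]
    intro a ha
    obtain ⟨n, b, hb⟩ := exists_num (C.affine S) r a
    have h3 : rs hle b = 0 := by
      rw [← rs_rs (X.basicOpen_le r) hle2, hb, map_mul, ha, mul_zero]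
    have h4 : b = 0 := by
      apply C.inj
      rw [← C.phi_rs hST, h3, map_zero, map_zero]
    rw [h4, map_zero] at hb
    exact ((isUnit_rs_basicOpen r).pow n).mul_right_eq_zero.1 hb.symm
  · intro c
    obtain ⟨n, hn⟩ := h2 _ (C.phi_mem T c)
    obtain ⟨v, hv⟩ := (isUnit_rs_basicOpen r).pow n
    refine ⟨↑v⁻¹ * rs (X.basicOpen_le r) (C.fn S _ hn), ?_⟩
    have h3 : rs hle2 (rs (X.basicOpen_le r) r ^ n) * rs hle2 (↑v⁻¹ : Γ(X, X.basicOpen r)) = 1 := by
      rw [← map_mul, ← hv, Units.mul_inv, map_one]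
    have hu2 : IsUnit (rs hle r ^ n) := hu.pow n
    apply hu2.mul_left_cancel
    rw [map_mul, ← mul_assoc]
    rw [map_pow, rs_rs] at h3
    rw [h3, one_mul, rs_rs]
    apply C.inj
    rw [C.phi_rs hST, phi_fn, map_mul, map_pow, C.phi_rs hST]

end Charted

end BadRed
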