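import Pool.Agent.Lib.MP_55c1e7_ag.B0.Q1

open AlgebraicGeometry CategoryTheory Limits TopologicalSpace Opposite

namespace BadRed

open MP55c1e7.B0

variable {k K : Type} [Field k] [Field K] [Algebra k K] {Lam : Type}

namespace Charted

variable {X : Scheme.{0}} {f : X ⟶ Spec (CommRingCat.of k)} {A : Lam → Subalgebra k K}
  (C : Charted f A)

lemma iSup_interV : ⨆ S : NF Lam, interV C.V S = ⊤ := by
  rw [eq_top_iff, ← C.cover]
  refine iSup_le fun l => ?_
  refine le_trans ?_ (le_iSup _ (NF.single l))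
  exact (Finset.inf_singleton).ge

include C in
/-- BOX B2a -/
theorem isLocallyNoetherian' (hA : ∀ l, (A l).FG) : IsLocallyNoetherian X := by
  refine isLocallyNoetherian_of_affine_cover (S := fun S : NF Lam => ⟨interV C.V S, C.affine S⟩)
    C.iSup_interV fun S => ?_
  have h1 : IsNoetherianRing (cechRing A S) := noeth_of_fg (cechRing_fg A hA S)
  have h2 : IsNoetherianRing (C.phi S).range := by
    rw [C.range S]
    exact h1
  exact isNoetherianRing_of_ringEquiv _
    (RingEquiv.ofBijective (C.phi S).rangeRestrict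
      ⟨fun a b h => C.inj S (congrArg Subtype.val h), (C.phi S).rangeRestrict_surjective⟩).symm

lemma exists_basic (hA : ∀ l, (A l).FG) (hden : CechDen A) {S T : NF Lam} (h : S ≤ T) :
    ∃ r : Γ(X, interV C.V S), C.phi S r ≠ 0 ∧ (C.phi S r)⁻¹ ∈ cechRing A T ∧
      (∀ x ∈ cechRing A T, ∃ n : ℕ, C.phi S r ^ n * x ∈ cechRing A S) ∧
      X.basicOpen r = interV C.V T := by
  obtain ⟨r, h1, h2, h3, h4⟩ := exists_den (cechRing_fg A hA T) (hden S T h)
  refine ⟨C.fn S r h1, ?_⟩
  rw [phi_fn]
  refine ⟨h2, h3, h4, C.basicOpen_eq h _ ?_ ?_ ?_⟩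
  · rw [phi_fn]; exact h2
  · rw [phi_fn]; exact h3
  · rw [phi_fn]; exact h4

/-- the affine system of a charted scheme -/
noncomputable def affSys [DecidableEq Lam] (hA : ∀ l, (A l).FG) (hden : CechDen A) :
    AffSys X (NF Lam)ᵒᵈ where
  U p := interV C.V (OrderDual.ofDual p)
  aff p := C.affine _
  inf p q := Finset.inf_union
  cov := C.iSup_interV
  basic p q h := by
    obtain ⟨r, -, -, -, hr⟩ := C.exists_basic hA hden (S := OrderDual.ofDual q)
      (T := OrderDual.ofDual p) h
    exact ⟨r, hr⟩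

end Charted

end BadRed
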