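import Pool.Agent.Lib.MP_55c1e7_ag.B0.Q2

open AlgebraicGeometry CategoryTheory Limits TopologicalSpace Opposite

namespace BadRed

open MP55c1e7 MP55c1e7.B0 LocData

variable {k K : Type} [Field k] [Field K] [Algebra k K] {Lam : Type}

section scalars

variable {X : Scheme.{0}} (f : X ⟶ Spec (CommRingCat.of k))

/-- scalars as functions on an open set -/
noncomputable def kR (U : X.Opens) : k →+* Γ(X, U) :=
  (X.presheaf.map (homOfLE (le_top : U ≤ ⊤)).op).hom.comp (scalars f)

lemma kR_apply (U : X.Opens) (c : k) : kR f U c = resTop (scalars f c) U := rfl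

lemma rs_kR {U W : X.Opens} (h : W ≤ U) (c : k) : rs h (kR f U c) = kR f W c := by
  rw [kR_apply, kR_apply]
  exact resTop_res (scalars f c) (homOfLE h)

/-- sections as a `k`-module -/
noncomputable def obK (F : X.Modules) (U : X.Opens) : ModuleCat.{0} k :=
  letI := Module.compHom Γ(F, U) (kR f U)
  ModuleCat.of k Γ(F, U)

lemma obK_smul (F : X.Modules) (U : X.Opens) (c : k) (x : obK f F U) :
    (show Γ(F, U) from c • x) = kR f U c • (show Γ(F, U) from x) := rfl

/-- maps of sections as `k`-linear maps -/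
noncomputable def hmK {F G : X.Modules} {U W : X.Opens} (g : Γ(F, U) →+ Γ(G, W))
    (hg : ∀ c x, g (kR f U c • x) = kR f W c • g x) : obK f F U ⟶ obK f G W :=
  letI := Module.compHom Γ(F, U) (kR f U)
  letI := Module.compHom Γ(G, W) (kR f W)
  ModuleCat.ofHom { toFun := g, map_add' := map_add g, map_smul' := hg }

lemma hmK_apply {F G : X.Modules} {U W : X.Opens} (g : Γ(F, U) →+ Γ(G, W))
    (hg : ∀ c x, g (kR f U c • x) = kR f W c • g x) (x : Γ(F, U)) :
    (hmK f g hg).hom x = g x := rfl

lemma obK_ext {F G : X.Modules} {U W : X.Opens} (a b : obK f F U ⟶ obK f G W)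
    (h : ∀ x : Γ(F, U), a.hom x = b.hom x) : a = b := by
  apply ModuleCat.hom_ext
  apply LinearMap.ext
  exact h

end scalars

namespace Charted

variable {X : Scheme.{0}} {f : X ⟶ Spec (CommRingCat.of k)} {A : Lam → Subalgebra k K}
  (C : Charted f A)

lemma fn_mul (S : NF Lam) {x y : K} (hx : x ∈ cechRing A S) (hy : y ∈ cechRing A S) :
    C.fn S (x * y) (mul_mem hx hy) = C.fn S x hx * C.fn S y hy := by
  symm
  apply C.eq_fn
  rw [map_mul, phi_fn, phi_fn]

lemma fn_add (S : NF Lam) {x y : K} (hx : x ∈ cechRing A S) (hy : y ∈ cechRing A S) :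
    C.fn S (x + y) (add_mem hx hy) = C.fn S x hx + C.fn S y hy := by
  symm
  apply C.eq_fn
  rw [map_add, phi_fn, phi_fn]

lemma fn_one (S : NF Lam) (h : (1 : K) ∈ cechRing A S) : C.fn S 1 h = 1 := by
  symm
  apply C.eq_fn
  rw [map_one]

lemma fn_zero (S : NF Lam) (h : (0 : K) ∈ cechRing A S) : C.fn S 0 h = 0 := by
  symm
  apply C.eq_fn
  rw [map_zero]

lemma fn_congr (S : NF Lam) {x y : K} (hx : x ∈ cechRing A S) (h : x = y) :
    C.fn S x hx = C.fn S y (h ▸ hx) := by
  subst h
  rfl

lemma phi_kR (S : NF Lam) (c : k) : C.phi S (kR f _ c) = algebraMap k K c := C.alg S c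

lemma fn_smul (S : NF Lam) {x : K} (hx : x ∈ cechRing A S) (c : k) :
    C.fn S (c • x) (Subalgebra.smul_mem _ hx c) = kR f _ c * C.fn S x hx := by
  symm
  apply C.eq_fn
  rw [map_mul, phi_fn, phi_kR, Algebra.smul_def]

lemma rs_fn {S T : NF Lam} (h : S ≤ T) {x : K} (hx : x ∈ cechRing A S) :
    rs (interV_anti C.V h) (C.fn S x hx) = C.fn T x (cechRing_mono A h hx) := by
  apply C.eq_fn
  rw [C.phi_rs h, phi_fn]

open Classical in
/-- the action of an element of `K` on sections -/
noncomputable def mapS (F : X.Modules) (S T : NF Lam) (x : K) (hx : x ∈ cechRing A T) :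
    Γ(F, interV C.V S) →+ Γ(F, interV C.V T) :=
  if h : S ≤ T then (DistribSMul.toAddMonoidHom _ (C.fn T x hx)).comp
    (B0.res F (interV_anti C.V h)) else 0

lemma mapS_of_le (F : X.Modules) {S T : NF Lam} (h : S ≤ T) {x : K} (hx : x ∈ cechRing A T)
    (s : Γ(F, interV C.V S)) : C.mapS F S T x hx s = C.fn T x hx • B0.res F (interV_anti C.V h) s := by
  unfold mapS
  rw [dif_pos h]
  rfl

lemma mapS_not_le (F : X.Modules) {S T : NF Lam} (h : ¬ S ≤ T) {x : K} (hx : x ∈ cechRing A T)
    (s : Γ(F, interV C.V S)) : C.mapS F S T x hx s = 0 := by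
  unfold mapS
  rw [dif_neg h]
  rfl

lemma mapS_zero (F : X.Modules) (S T : NF Lam) (h : (0 : K) ∈ cechRing A T)
    (s : Γ(F, interV C.V S)) : C.mapS F S T 0 h s = 0 := by
  by_cases hS : S ≤ T
  · rw [mapS_of_le C F hS, fn_zero, zero_smul]
  · exact mapS_not_le C F hS h s

lemma mapS_congr (F : X.Modules) (S T : NF Lam) {x y : K} (hx : x ∈ cechRing A T) (h : x = y)
    (s : Γ(F, interV C.V S)) : C.mapS F S T x hx s = C.mapS F S T y (h ▸ hx) s := by
  subst h
  rfl

lemma mapS_kR (F : X.Modules) (S T : NF Lam) {x : K} (hx : x ∈ cechRing A T) (c : k)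
    (s : Γ(F, interV C.V S)) : C.mapS F S T x hx (kR f (interV C.V S) c • s) =
      kR f (interV C.V T) c • C.mapS F S T x hx s := by
  by_cases hS : S ≤ T
  · rw [mapS_of_le C F hS, mapS_of_le C F hS, res_smul, rs_kR, smul_comm]
  · rw [mapS_not_le C F hS hx, mapS_not_le C F hS hx, smul_zero]

lemma mapS_app {F G : X.Modules} (φ : F ⟶ G) (S T : NF Lam) {x : K} (hx : x ∈ cechRing A T)
    (s : Γ(F, interV C.V S)) : φ.app _ (C.mapS F S T x hx s) = C.mapS G S T x hx (φ.app _ s) := by
  by_cases hS : S ≤ T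
  · rw [mapS_of_le C F hS, mapS_of_le C G hS, Scheme.Modules.Hom.app_smul, res_app]
  · rw [mapS_not_le C F hS hx, mapS_not_le C G hS hx, map_zero]

lemma hom_mem {hA : ∀ l, (A l).FG} {a b : Cat (cech A hA)} (g : a ⟶ b) :
    val g ∈ cechRing A b.of := (val_mem g).1

lemma hom_zero {hA : ∀ l, (A l).FG} {a b : Cat (cech A hA)} (g : a ⟶ b) (h : ¬ a.of ≤ b.of) :
    val g = 0 := (val_mem g).2.resolve_left h

/-- the representation of a sheaf of modules -/
noncomputable def rep (hA : ∀ l, (A l).FG) (F : X.Modules) : Cat (cech A hA) ⥤ ModuleCat.{0} k where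
  obj a := obK f F (interV C.V a.of)
  map {a b} g := hmK f (C.mapS F a.of b.of (val g) (hom_mem g)) (C.mapS_kR F _ _ _)
  map_id a := by
    apply obK_ext
    intro x
    rw [hmK_apply]
    show C.mapS F a.of a.of 1 (one_mem _) x = x
    rw [C.mapS_of_le F le_rfl, C.fn_one, one_smul, res_self]
  map_comp {a b c} g g' := by
    apply obK_ext
    intro x
    rw [hmK_apply]
    have hm : val g * val g' ∈ cechRing A c.of := hom_mem (g ≫ g')
    show C.mapS F a.of c.of (val g * val g') hm x = C.mapS F b.of c.of (val g') (hom_mem g')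
      (C.mapS F a.of b.of (val g) (hom_mem g) x)
    by_cases h1 : a.of ≤ b.of
    · by_cases h2 : b.of ≤ c.of
      · rw [C.mapS_of_le F h1, C.mapS_of_le F h2, C.mapS_of_le F (h1.trans h2), res_smul, res_res,
          C.rs_fn h2, ← mul_smul, ← C.fn_mul]
        congr 1
        exact C.fn_congr _ _ (mul_comm _ _)
      · have h3 := hom_zero g' h2
        rw [C.mapS_not_le F h2]
        rw [C.mapS_congr F _ _ _ (show val g * val g' = 0 by rw [h3, mul_zero])]
        exact C.mapS_zero F _ _ _ _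
    · have h3 := hom_zero g h1
      rw [C.mapS_not_le F h1, map_zero]
      rw [C.mapS_congr F _ _ _ (show val g * val g' = 0 by rw [h3, zero_mul])]
      exact C.mapS_zero F _ _ _ _

lemma rep_map (hA : ∀ l, (A l).FG) (F : X.Modules) {a b : Cat (cech A hA)} (g : a ⟶ b)
    (s : Γ(F, interV C.V a.of)) :
    ((C.rep hA F).map g).hom s = C.mapS F a.of b.of (val g) (hom_mem g) s := rfl

lemma act_rep (hA : ∀ l, (A l).FG) (F : X.Modules) {a b : NF Lam} (h : a ≤ b) {x : K}
    (hx : x ∈ (cech A hA).H a b) (s : Γ(F, interV C.V a)) :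
    act (C.rep hA F) x hx s = C.fn b x hx.1 • B0.res F (interV_anti C.V h) s :=
  C.mapS_of_le F h hx.1 s

/-- the functor -/
noncomputable def repF (hA : ∀ l, (A l).FG) : X.Modules ⥤ (Cat (cech A hA) ⥤ ModuleCat.{0} k) where
  obj F := C.rep hA F
  map {F G} φ :=
    { app := fun a => hmK f (φ.app (interV C.V a.of)).hom
        (fun c x => Scheme.Modules.Hom.app_smul φ _ x)
      naturality := by
        intro a b g
        apply obK_ext
        intro x
        exact C.mapS_app φ _ _ _ x }
  map_id F := by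
    apply NatTrans.ext
    funext a
    apply obK_ext
    intro x
    rfl
  map_comp φ ψ := by
    apply NatTrans.ext
    funext a
    apply obK_ext
    intro x
    rfl

end Charted

end BadRed
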