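import Pool.Agent.Lib.MP_55c1e7_ag.B0.Q3

open AlgebraicGeometry CategoryTheory Limits TopologicalSpace Opposite

namespace BadRed

open MP55c1e7 MP55c1e7.B0 LocData

variable {k K : Type} [Field k] [Field K] [Algebra k K] {Lam : Type}

namespace Charted

variable {X : Scheme.{0}} {f : X ⟶ Spec (CommRingCat.of k)} {A : Lam → Subalgebra k K}
  (C : Charted f A)

lemma act_self (hA : ∀ l, (A l).FG) (F : X.Modules) {a : NF Lam} {x : K}
    (hx : x ∈ (cech A hA).H a a) (s : Γ(F, interV C.V a)) :
    act (C.rep hA F) x hx s = C.fn a x hx.1 • s := by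
  rw [C.act_rep hA F le_rfl hx s, res_self]

lemma act_phi (hA : ∀ l, (A l).FG) (F : X.Modules) {a : NF Lam} (r : Γ(X, interV C.V a))
    (hx : C.phi a r ∈ (cech A hA).H a a) (s : Γ(F, interV C.V a)) :
    act (C.rep hA F) (C.phi a r) hx s = r • s := by
  rw [C.act_self hA F hx s, ← C.eq_fn a r _ _ rfl]

lemma rep_map_add (hA : ∀ l, (A l).FG) (F : X.Modules) {a b : Cat (cech A hA)} (g g' : a ⟶ b) :
    (C.rep hA F).map (g + g') = (C.rep hA F).map g + (C.rep hA F).map g' := by
  apply obK_ext
  intro x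
  have hm : val g + val g' ∈ cechRing A b.of := hom_mem (g + g')
  show C.mapS F a.of b.of (val g + val g') hm x = C.mapS F a.of b.of (val g) (hom_mem g) x +
    C.mapS F a.of b.of (val g') (hom_mem g') x
  by_cases h : a.of ≤ b.of
  · rw [C.mapS_of_le F h, C.mapS_of_le F h, C.mapS_of_le F h, C.fn_add, add_smul]
  · rw [C.mapS_not_le F h, C.mapS_not_le F h, C.mapS_not_le F h, add_zero]

lemma rep_map_smul (hA : ∀ l, (A l).FG) (F : X.Modules) {a b : Cat (cech A hA)} (r : k)
    (g : a ⟶ b) : (C.rep hA F).map (r • g) = r • (C.rep hA F).map g := by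
  apply obK_ext
  intro x
  have hm : r • val g ∈ cechRing A b.of := hom_mem (r • g)
  show C.mapS F a.of b.of (r • val g) hm x =
    kR f (interV C.V b.of) r • C.mapS F a.of b.of (val g) (hom_mem g) x
  by_cases h : a.of ≤ b.of
  · rw [C.mapS_of_le F h, C.mapS_of_le F h, C.fn_smul, mul_smul]
  · rw [C.mapS_not_le F h, C.mapS_not_le F h, smul_zero]

theorem isCohRep_rep (hA : ∀ l, (A l).FG) (hden : CechDen A) (F : X.Modules)
    (hF : isCoh X F) : IsCohRep (C.rep hA F) := by
  have hqc : F.IsQuasicoherent := hF.1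
  have hloc : ∀ a, LocOn F (interV C.V a) := fun a => locOn_of_isQuasicoherent F _ (C.affine a)
  refine ⟨C.rep_map_add hA F, C.rep_map_smul hA F, ?_, ?_, ?_⟩
  · intro a
    have hfin := hF.2 _ (C.affine a)
    obtain ⟨n, e, he⟩ := Module.Finite.exists_fin (R := Γ(X, interV C.V a))
      (M := Γ(F, interV C.V a))
    refine ⟨n, e, fun m => ?_⟩
    have hm : (show Γ(F, interV C.V a) from m) ∈
        Submodule.span Γ(X, interV C.V a) (Set.range e) := by rw [he]; trivial
    obtain ⟨c, hc⟩ := (Submodule.mem_span_range_iff_exists_fun _).1 hm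
    refine ⟨fun i => ⟨C.phi a (c i), C.phi_mem a _⟩, ?_⟩
    refine hc.symm.trans ?_
    refine Finset.sum_congr rfl fun i _ => ?_
    exact (C.act_phi hA F (c i) _ (e i)).symm
  · intro a b hab (m : Γ(F, interV C.V b))
    obtain ⟨r, h1, h2, h3, h4⟩ := C.exists_basic hA hden (S := a) (T := b) hab
    obtain ⟨n, t, ht⟩ := (hloc a).ex r (B0.res F h4.le m)
    have ht2 : B0.res F (interV_anti C.V hab) t = rs (interV_anti C.V hab) r ^ n •
        m := by
      have h5 := congrArg (B0.res F h4.ge) ht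
      rwa [res_smul, res_res, res_res, map_pow, rs_rs, res_self] at h5
    have hb : C.phi a r ^ n ∈ cechRing A b :=
      pow_mem (cechRing_mono A hab (C.phi_mem a r)) n
    refine ⟨C.phi a r ^ n, hb, t, pow_mem (C.phi_mem a r) n, pow_ne_zero _ h1, ?_, ?_⟩
    · rw [← inv_pow]
      exact pow_mem h2 n
    · refine (C.act_self hA F _ m).trans ?_
      refine Eq.trans ?_ (C.act_rep hA F hab _ t).symm
      rw [ht2, C.fn_one, one_smul]
      congr 1
      symm
      apply C.eq_fn
      rw [map_pow, C.phi_rs hab]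
  · intro a b hab (t : Γ(F, interV C.V a)) ht
    obtain ⟨r, h1, h2, h3, h4⟩ := C.exists_basic hA hden (S := a) (T := b) hab
    have ht2 : B0.res F (interV_anti C.V hab) t = 0 := by
      have h5 := (C.act_rep hA F hab ((cech A hA).rel_one hab) t).symm.trans ht
      rwa [C.fn_one, one_smul] at h5
    obtain ⟨n, hn⟩ := (hloc a).un r t (by
      have h5 := congrArg (B0.res F h4.le) ht2
      rwa [res_res, map_zero] at h5)
    refine ⟨C.phi a r ^ n, pow_mem (C.phi_mem a r) n, pow_ne_zero _ h1, ?_, ?_⟩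
    · rw [← inv_pow]
      exact pow_mem h2 n
    · refine (C.act_self hA F _ t).trans ?_
      refine Eq.trans ?_ hn
      congr 1
      symm
      apply C.eq_fn
      rw [map_pow]

end Charted

end BadRed
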