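import Pool.Agent.Lib.MP_55c1e7_ag.B0.Q4

open AlgebraicGeometry CategoryTheory Limits TopologicalSpace Opposite

namespace BadRed

open MP55c1e7 MP55c1e7.B0 LocData

variable {k K : Type} [Field k] [Field K] [Algebra k K] {Lam : Type}

lemma qact_one {Ob : Type} {P : LocData k K Ob} (G : Cat P ⥤ ModuleCat.{0} k) {a : Ob} {x : K}
    (hx : x ∈ P.H a a) (h : x = 1) (m : G.obj ⟨a⟩) : act G x hx m = m := by
  subst h
  exact act_one G hx m

lemma qact_add {Ob : Type} {P : LocData k K Ob} {G : Cat P ⥤ ModuleCat.{0} k} (hG : IsCohRep G)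
    {a b : Ob} {x y : K} (hx : x ∈ P.H a b) (hy : y ∈ P.H a b) (hxy : x + y ∈ P.H a b)
    (m : G.obj ⟨a⟩) : act G (x + y) hxy m = act G x hx m + act G y hy m := by
  unfold act
  have h : homMk (x + y) hxy = homMk x hx + homMk y hy := rfl
  rw [h, hG.map_add]
  rfl

lemma qact_zero {Ob : Type} {P : LocData k K Ob} {G : Cat P ⥤ ModuleCat.{0} k} (hG : IsCohRep G)
    {a b : Ob} {x : K} (hx : x ∈ P.H a b) (h : x = 0) (m : G.obj ⟨a⟩) : act G x hx m = 0 := by
  subst h
  have h2 := qact_add hG hx hx (by rw [add_zero]; exact hx) m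
  rw [act_congr G _ (add_zero 0)] at h2
  exact left_eq_add.1 h2

lemma qact_kmul {Ob : Type} {P : LocData k K Ob} {G : Cat P ⥤ ModuleCat.{0} k} (hG : IsCohRep G)
    {a : Ob} (c : k) {x : K} (hx : x ∈ P.H a a) (h : x = algebraMap k K c)
    (m : G.obj ⟨a⟩) : act G x hx m = c • m := by
  subst h
  unfold act
  have h : homMk (algebraMap k K c) hx = c • 𝟙 (⟨a⟩ : Cat P) := by
    apply LocData.hom_ext
    rw [val_homMk, val_smul, val_id, Algebra.smul_def, mul_one]
  rw [h, hG.map_smul, G.map_id]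
  rfl

namespace Charted

variable {X : Scheme.{0}} {f : X ⟶ Spec (CommRingCat.of k)} {A : Lam → Subalgebra k K}
  (C : Charted f A) {hA : ∀ l, (A l).FG}

lemma phiH (S : NF Lam) (a : Γ(X, interV C.V S)) : C.phi S a ∈ (cech A hA).H S S :=
  ⟨C.phi_mem S a, Or.inl le_rfl⟩

lemma memH {S T : NF Lam} (h : S ≤ T) {x : K} (hx : x ∈ cechRing A T) :
    x ∈ (cech A hA).H S T := ⟨hx, Or.inl h⟩

/-- the module structure over functions -/
@[reducible]
noncomputable def modG {G : Cat (cech A hA) ⥤ ModuleCat.{0} k} (hG : IsCohRep G) (a : NF Lam) :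
    Module Γ(X, interV C.V a) (G.obj ⟨a⟩) where
  smul r m := act G (C.phi a r) (C.phiH a r) m
  one_smul m := qact_one G _ (map_one _) m
  mul_smul r s m := by
    show act G (C.phi a (r * s)) _ m = act G (C.phi a r) (C.phiH a r)
      (act G (C.phi a s) (C.phiH a s) m)
    rw [act_mul]
    exact act_congr G _ (by rw [map_mul, mul_comm]) m
  smul_zero r := map_zero _
  smul_add r x y := map_add _ x y
  add_smul r s m := by
    show act G (C.phi a (r + s)) _ m = act G (C.phi a r) (C.phiH a r) m +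
      act G (C.phi a s) (C.phiH a s) m
    rw [← qact_add hG (C.phiH a r) (C.phiH a s) (add_mem (C.phiH a r) (C.phiH a s))]
    exact act_congr G _ (map_add _ _ _) m
  zero_smul m := qact_zero hG _ (map_zero _) m

lemma modG_smul {G : Cat (cech A hA) ⥤ ModuleCat.{0} k} (hG : IsCohRep G) (a : NF Lam)
    (r : Γ(X, interV C.V a)) (m : G.obj ⟨a⟩) :
    letI := C.modG hG a
    r • m = act G (C.phi a r) (C.phiH a r) m := rfl

lemma modG_fn {G : Cat (cech A hA) ⥤ ModuleCat.{0} k} (hG : IsCohRep G) (a : NF Lam)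
    (x : K) (hx : x ∈ cechRing A a) (m : G.obj ⟨a⟩) :
    letI := C.modG hG a
    C.fn a x hx • m = act G x (memH le_rfl hx) m := by
  rw [modG_smul]
  exact act_congr G _ (C.phi_fn a x hx) m

lemma act_trans {G : Cat (cech A hA) ⥤ ModuleCat.{0} k} {S T R : NF Lam} (h : S ≤ T)
    (h' : T ≤ R) (x : G.obj ⟨S⟩) : act G (1 : K) (memH h' (one_mem _))
      (act G (1 : K) (memH h (one_mem _)) x) = act G (1 : K) (memH (h.trans h') (one_mem _)) x := by
  rw [act_mul]
  exact act_congr G _ (mul_one 1) x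

lemma act_one_smul {G : Cat (cech A hA) ⥤ ModuleCat.{0} k} {S T : NF Lam} (h : S ≤ T)
    (a : Γ(X, interV C.V S)) (x : G.obj ⟨S⟩) :
    act G (1 : K) (memH h (one_mem _)) (act G (C.phi S a) (C.phiH S a) x) =
      act G (C.phi T (rs (interV_anti C.V h) a)) (C.phiH T _)
        (act G (1 : K) (memH h (one_mem _)) x) := by
  rw [act_mul, act_mul]
  exact act_congr G _ (by rw [C.phi_rs h, mul_comm]) x

lemma loc_ex {G : Cat (cech A hA) ⥤ ModuleCat.{0} k} (hG : IsCohRep G) {S T : NF Lam}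
    (h : S ≤ T) (r : Γ(X, interV C.V S)) (h3 : ∀ x ∈ cechRing A T, ∃ n : ℕ,
      C.phi S r ^ n * x ∈ cechRing A S) (m : G.obj ⟨T⟩) :
    ∃ (n : ℕ) (t : G.obj ⟨S⟩), act G (1 : K) (memH h (one_mem _)) t =
      act G (C.phi T (rs (interV_anti C.V h) r ^ n)) (C.phiH T _) m := by
  obtain ⟨x, hb, n₀, hx, hx0, hxi, hxm⟩ := hG.loc_surj (a := S) (b := T) h m
  obtain ⟨n, hn⟩ := h3 _ hxi
  refine ⟨n, act G _ (memH le_rfl hn) n₀, ?_⟩
  have h4 : act G (1 : K) (memH h (one_mem _)) (act G (C.phi S r ^ n * x⁻¹) (memH le_rfl hn) n₀) =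
      act G (C.phi S r ^ n * x⁻¹) (memH le_rfl (cechRing_mono A h hn))
        (act G (1 : K) (memH h (one_mem _)) n₀) := by
    rw [act_mul, act_mul]
    exact act_congr G _ (mul_comm _ _) _
  rw [h4]
  have h5 : act G (1 : K) (memH h (one_mem _)) n₀ = act G x (memH le_rfl hb) m := hxm.symm
  rw [h5, act_mul]
  refine act_congr G _ ?_ m
  rw [map_pow, C.phi_rs h, mul_comm, mul_assoc, inv_mul_cancel₀ hx0, mul_one]

lemma loc_un {G : Cat (cech A hA) ⥤ ModuleCat.{0} k} (hG : IsCohRep G) {S T : NF Lam}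
    (h : S ≤ T) (r : Γ(X, interV C.V S)) (h3 : ∀ x ∈ cechRing A T, ∃ n : ℕ,
      C.phi S r ^ n * x ∈ cechRing A S) (t : G.obj ⟨S⟩)
    (ht : act G (1 : K) (memH h (one_mem _)) t = 0) :
    ∃ n : ℕ, act G (C.phi S (r ^ n)) (C.phiH S _) t = 0 := by
  obtain ⟨x, hx, hx0, hxi, hxt⟩ := hG.loc_inj (a := S) (b := T) h t ht
  obtain ⟨n, hn⟩ := h3 _ hxi
  refine ⟨n, ?_⟩
  have h4 := congrArg (act G _ (memH (hA := hA) le_rfl hn)) hxt
  rw [act_mul, map_zero] at h4
  rw [← h4]
  refine act_congr G _ ?_ t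
  rw [map_pow, mul_comm, mul_assoc, inv_mul_cancel₀ hx0, mul_one]

/-- the module system of a representation -/
noncomputable def modSys [DecidableEq Lam] (hden : CechDen A)
    {G : Cat (cech A hA) ⥤ ModuleCat.{0} k} (hG : IsCohRep G) :
    letI : ∀ p : (NF Lam)ᵒᵈ, Module Γ(X, (C.affSys hA hden).U p) (G.obj ⟨OrderDual.ofDual p⟩) :=
      fun p => C.modG hG (OrderDual.ofDual p)
    ModSys (C.affSys hA hden) (fun p => (G.obj ⟨OrderDual.ofDual p⟩ : ModuleCat.{0} k)) :=
  letI : ∀ p : (NF Lam)ᵒᵈ, Module Γ(X, (C.affSys hA hden).U p) (G.obj ⟨OrderDual.ofDual p⟩) :=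
      fun p => C.modG hG (OrderDual.ofDual p)
  { ρ := fun p q h => (act G (1 : K) (memH (S := OrderDual.ofDual q) (T := OrderDual.ofDual p) h
      (one_mem _))).toAddMonoidHom
    ρ_self := fun p x => qact_one G _ rfl x
    ρ_ρ := fun p q r h h' x => act_trans (S := OrderDual.ofDual r) (T := OrderDual.ofDual q)
      (R := OrderDual.ofDual p) h' h x
    ρ_smul := fun p q h a x => C.act_one_smul (S := OrderDual.ofDual q) (T := OrderDual.ofDual p)
      h a x
    loc := fun p q h => by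
      obtain ⟨r, h1, h2, h3, h4⟩ := C.exists_basic hA hden (S := OrderDual.ofDual q)
        (T := OrderDual.ofDual p) h
      exact ⟨r, h4, fun m => C.loc_ex hG (S := OrderDual.ofDual q) (T := OrderDual.ofDual p)
        h r h3 m, fun t ht => C.loc_un hG (S := OrderDual.ofDual q) (T := OrderDual.ofDual p)
        h r h3 t ht⟩ }

end Charted

end BadRed
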