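import Pool.Agent.Lib.MP_55c1e7_ag.B0.Q5

open AlgebraicGeometry CategoryTheory Limits TopologicalSpace Opposite

namespace BadRed

open MP55c1e7 MP55c1e7.B0 LocData

variable {k K : Type} [Field k] [Field K] [Algebra k K] {Lam : Type}

namespace Charted

variable {X : Scheme.{0}} {f : X ⟶ Spec (CommRingCat.of k)} {A : Lam → Subalgebra k K}
  (C : Charted f A) {hA : ∀ l, (A l).FG}

theorem exists_coh (hden : CechDen A) {G : Cat (cech A hA) ⥤ ModuleCat.{0} k}
    (hG : IsCohRep G) : ∃ F : X.Modules, isCoh X F ∧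
      ∃ ε : ∀ a : NF Lam, Γ(F, interV C.V a) ≃+ G.obj ⟨a⟩,
        (∀ (a : NF Lam) (r : Γ(X, interV C.V a)) (x : Γ(F, interV C.V a)),
          ε a (r • x) = act G (C.phi a r) (C.phiH a r) (ε a x)) ∧
        ∀ (S T : NF Lam) (h : S ≤ T) (x : Γ(F, interV C.V S)),
          ε T (B0.res F (interV_anti C.V h) x) = act G (1 : K) (memH h (one_mem _)) (ε S x) := by
  classical
  let _ : ∀ p : (NF Lam)ᵒᵈ, Module Γ(X, (C.affSys hA hden).U p) (G.obj ⟨OrderDual.ofDual p⟩) :=
      fun p => C.modG hG (OrderDual.ofDual p)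
  obtain ⟨F, hF, ε₀, hε1₀, hε2₀⟩ := (C.modSys hden hG).exists_sheaf
  let ε : ∀ a : NF Lam, Γ(F, interV C.V a) ≃+ G.obj ⟨a⟩ := fun a => ε₀ (OrderDual.toDual a)
  have hε1 : ∀ (a : NF Lam) (r : Γ(X, interV C.V a)) (x : Γ(F, interV C.V a)),
      ε a (r • x) = act G (C.phi a r) (C.phiH a r) (ε a x) :=
    fun a r x => hε1₀ (OrderDual.toDual a) r x
  have hε2 : ∀ (S T : NF Lam) (h : S ≤ T) (x : Γ(F, interV C.V S)),
      ε T (B0.res F (interV_anti C.V h) x) = act G (1 : K) (memH h (one_mem _)) (ε S x) :=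
    fun S T h x => hε2₀ (OrderDual.toDual T) (OrderDual.toDual S) h x
  have hqc : F.IsQuasicoherent := isQuasicoherent_of_locOn F
    (fun p : (NF Lam)ᵒᵈ => (C.affSys hA hden).U p) (C.affSys hA hden).aff
    (C.affSys hA hden).cov hF
  have hfin : ∀ a : NF Lam, Module.Finite Γ(X, interV C.V a) Γ(F, interV C.V a) := by
    intro a
    obtain ⟨n, e, he⟩ := hG.fin a
    refine ⟨⟨Finset.univ.image (fun i => (ε a).symm (e i)), ?_⟩⟩
    rw [eq_top_iff]
    intro x _
    obtain ⟨c, hc⟩ := he (ε a x)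
    have h1 : x = ∑ i, C.fn a (c i).1 (c i).2 • (ε a).symm (e i) := by
      apply (ε a).injective
      refine hc.trans ?_
      rw [map_sum]
      refine Finset.sum_congr rfl fun i _ => ?_
      refine Eq.trans ?_ (hε1 a _ _).symm
      rw [AddEquiv.apply_symm_apply]
      exact act_congr G _ (C.phi_fn a _ _).symm _
    rw [h1]
    refine Submodule.sum_mem _ fun i _ => Submodule.smul_mem _ _ (Submodule.subset_span ?_)
    rw [Finset.coe_image]
    exact ⟨i, by simp, rfl⟩
  refine ⟨F, ⟨hqc, fun V hV => ?_⟩, ε, hε1, hε2⟩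
  exact finite_of_cover (fun U hU => locOn_of_isQuasicoherent F U hU)
      (fun S : NF Lam => interV C.V S) C.affine C.iSup_interV hfin V hV

/-- the comparison isomorphism -/
theorem exists_iso (hden : CechDen A) {G : Cat (cech A hA) ⥤ ModuleCat.{0} k}
    (hG : IsCohRep G) : ∃ F : X.Modules, isCoh X F ∧ Nonempty (C.rep hA F ≅ G) := by
  obtain ⟨F, hF, ε, hε1, hε2⟩ := C.exists_coh hden hG
  have hlin : ∀ (a : NF Lam) (c : k) (x : obK f F (interV C.V a)),
      ε a (c • x) = c • ε a x := by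
    intro a c x
    refine (hε1 a (kR f _ c) x).trans ?_
    exact qact_kmul hG c _ (C.phi_kR a c) _
  let e' : ∀ a : Cat (cech A hA), (C.rep hA F).obj a ≃ₗ[k] G.obj a := fun a =>
    { toFun := fun x => ε a.of x
      invFun := fun x => (ε a.of).symm x
      left_inv := (ε a.of).left_inv
      right_inv := (ε a.of).right_inv
      map_add' := fun x y => map_add (ε a.of) _ _
      map_smul' := hlin a.of }
  let e : ∀ a : Cat (cech A hA), (C.rep hA F).obj a ≅ G.obj a := fun a => (e' a).toModuleIso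
  suffices key : ∀ (a b : Cat (cech A hA)) (g : a ⟶ b) (x : Γ(F, interV C.V a.of)),
      ε b.of (C.mapS F a.of b.of (val g) (hom_mem g) x) =
        act G (val g) (val_mem g) (ε a.of x) by
    refine ⟨F, hF, ⟨NatIso.ofComponents e ?_⟩⟩
    intro a b g
    apply ModuleCat.hom_ext
    apply LinearMap.ext
    intro x
    exact key a b g x
  intro a b g x
  by_cases h : a.of ≤ b.of
  · rw [C.mapS_of_le F h, hε1, hε2 _ _ h, act_mul]
    exact act_congr G _ (by rw [phi_fn, one_mul]) _
  · rw [C.mapS_not_le F h, map_zero]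
    exact (qact_zero hG _ (hom_zero g h) _).symm

/-- fullness -/
theorem repF_full (hA : ∀ l, (A l).FG) (hden : CechDen A) (F G : X.Modules) (hF : isCoh X F)
    (η : C.rep hA F ⟶ C.rep hA G) : ∃ φ : F ⟶ G, (C.repF hA).map φ = η := by
  classical
  have hqc : F.IsQuasicoherent := hF.1
  let g : ∀ a : NF Lam, Γ(F, interV C.V a) →+ Γ(G, interV C.V a) := fun a =>
    (η.app ⟨a⟩).hom.toAddMonoidHom
  have hg : ∀ a x, g a x = (η.app ⟨a⟩).hom x := fun a x => rfl
  obtain ⟨φ, hφ⟩ := (C.affSys hA hden).exists_hom F G (fun p => g (OrderDual.ofDual p)) (by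
    intro p r x
    have h1 := act_naturality η (C.phiH (hA := hA) (OrderDual.ofDual p) r) x
    refine Eq.trans ?_ (h1.trans ?_)
    · exact congrArg (g (OrderDual.ofDual p)) (C.act_phi hA F r _ x).symm
    · exact C.act_phi hA G r _ _) (by
    intro p q h x
    have h' : OrderDual.ofDual q ≤ OrderDual.ofDual p := h
    have h1 := act_naturality η (memH (hA := hA) h' (one_mem _)) x
    refine Eq.trans ?_ (h1.trans ?_)
    · refine congrArg (g (OrderDual.ofDual p)) ?_
      refine Eq.trans ?_ (C.act_rep hA F h' _ x).symm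
      rw [C.fn_one, one_smul]
      rfl
    · refine (C.act_rep hA G h' _ _).trans ?_
      rw [C.fn_one, one_smul]
      rfl)
  refine ⟨φ, ?_⟩
  apply NatTrans.ext
  funext a
  apply obK_ext
  intro x
  exact hφ (OrderDual.toDual a.of) x

/-- faithfulness -/
theorem repF_faithful (hA : ∀ l, (A l).FG) (hden : CechDen A) {F G : X.Modules} (hF : isCoh X F)
    (φ ψ : F ⟶ G) (h : (C.repF hA).map φ = (C.repF hA).map ψ) : φ = ψ := by
  classical
  have hqc : F.IsQuasicoherent := hF.1
  refine (C.affSys hA hden).hom_ext φ ψ fun p x => ?_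
  have h1 := congrArg (fun t => (t.app ⟨OrderDual.ofDual p⟩).hom x) h
  exact h1

end Charted

end BadRed
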