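import Pool.Agent.Lib.MP_55c1e7_ag.B0.Q6

open AlgebraicGeometry CategoryTheory Limits TopologicalSpace Opposite

namespace BadRed

open MP55c1e7 MP55c1e7.B0 LocData

variable {k K : Type} [Field k] [Field K] [Algebra k K] {Lam : Type}

namespace Charted

variable {X : Scheme.{0}} {f : X ⟶ Spec (CommRingCat.of k)} {A : Lam → Subalgebra k K}
  (C : Charted f A)

/-- the functor from coherent sheaves to representations -/
noncomputable def cohF (hA : ∀ l, (A l).FG) (hden : CechDen A) :
    Coh f ⥤ CohRep (cech A hA) :=
  (cech A hA).isCohRep.lift ((isCoh X).ι ⋙ C.repF hA)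
    (fun F => C.isCohRep_rep hA hden F.obj F.property)

include C in
theorem coh_equiv' (hA : ∀ l, (A l).FG) (hden : CechDen A) :
    ∃ (e : Coh f ≌ CohRep (cech A hA)) (_ : e.functor.Additive), e.functor.Linear k := by
  have h1 : (C.cohF hA hden).Faithful := by
    constructor
    intro F G φ ψ h
    apply ObjectProperty.hom_ext
    refine C.repF_faithful hA hden F.property φ.hom ψ.hom ?_
    exact congrArg (fun t => t.hom) h
  have h2 : (C.cohF hA hden).Full := by
    constructor
    intro F G η
    obtain ⟨φ, hφ⟩ := C.repF_full hA hden F.obj G.obj F.property η.hom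
    refine ⟨ObjectProperty.homMk φ, ?_⟩
    apply ObjectProperty.hom_ext
    exact hφ
  have h3 : (C.cohF hA hden).EssSurj := by
    constructor
    intro G
    obtain ⟨F, hF, ⟨e⟩⟩ := C.exists_iso hden G.property
    exact ⟨⟨F, hF⟩, ⟨ObjectProperty.isoMk _ e⟩⟩
  have h4 : (C.cohF hA hden).IsEquivalence := { }
  refine ⟨(C.cohF hA hden).asEquivalence, ⟨?_⟩, ⟨?_⟩⟩
  · intro F G φ ψ
    apply ObjectProperty.hom_ext
    apply NatTrans.ext
    funext a
    apply obK_ext
    intro x
    rfl
  · intro F G φ c
    apply ObjectProperty.hom_ext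
    apply NatTrans.ext
    funext a
    apply obK_ext
    intro x
    exact Scheme.Modules.Hom.app_smul φ.hom (kR f (interV C.V a.of) c) x

end Charted

end BadRed
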